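import Pool.Agent.Work.MP_8f87b2_h50.J3Inn
import Pool.Agent.Work.MP_8f87b2_h3.A0T
import Pool.Agent.Work.MP_8f87b2_h60.TyB0

/-!
# MP_8f87b2_co: rows I-J3V-{L, K, K', Cr, Cl, A0, T}, hit list of I-J3V-E

`InJ`: start `111` / `1100`, end `000` / `1100`, one bead at height at least `ht R - 1 >= 2`. `bv`: factors `1 0 1` only up to
height 1, in both orientations.
-/

set_option autoImplicit false

namespace Pool.OddHC

open BinaryTree Equiv Multiset Pool.Agent.Work.MP_8f87b2_co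

namespace J3

open H1

variable {k n : ℕ} {w : X k} {S : BinaryTree Unit} {F F' : Set (Cyc k)} {g g' : DG k}

theorem sta2_first {t Y : BinaryTree Unit} (h : Sta 2 (wd t)) : t ≠ .nil △ Y := by
  rintro rfl
  rcases h with ⟨r, h⟩ | ⟨r, h⟩ <;> simp [wd_node, wd, List.replicate_succ] at h

theorem end2_last {t Y : BinaryTree Unit} (h : End 2 (wd t)) : t ≠ app Y (.nil △ .nil) := by
  rintro rfl
  have e : wd (app Y (.nil △ .nil)) = wd Y ++ [true, false] := by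
    rw [wd_app, wd_node]
    simp [wd]
  rw [e] at h
  rcases h with ⟨r, h⟩ | ⟨r, h⟩
  · have h1 := congrArg List.reverse h
    simp [List.replicate_succ] at h1
  · have h1 := congrArg List.reverse h
    simp [List.replicate_succ] at h1

/-- factors `1 0 1` only up to height `n`, both orientations -/
def bv (n : ℕ) (t : BinaryTree Unit) : Prop := vb n t ∧ vb n (Tsq.mir t)

theorem InJ.not_bv {t : BinaryTree Unit} (h : InJ n t) : ¬ bv 1 t := by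
  rintro ⟨h1, h2⟩
  have := h.n3
  rcases h.bead with h3 | h3
  · exact vb_not_hbn h1 (by omega) h3
  · exact vb_not_hbn h2 (by omega) h3

/-- **a plain triple**: every word starts with `()`, or ends with `()`, or has `bv 1` -/
theorem InJ.not_tri (h : InJ n w.1) {P Q R : BinaryTree Unit} (h' : IsTri P Q R F' g')
    (hw : ∀ Y : BinaryTree Unit, (Y = w1 P Q R ∨ Y = w1 Q R P ∨ Y = w1 R P Q) →
      (∃ Z, Y = .nil △ Z) ∨ (∃ Z, Y = app Z (.nil △ .nil)) ∨ bv 1 Y) : w ∉ g'.B := by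
  intro hw'
  have key : (∃ Z, w.1 = .nil △ Z) ∨ (∃ Z, w.1 = app Z (.nil △ .nil)) ∨ bv 1 w.1 := by
    apply hw
    rcases h'.words w hw' with e | ⟨_, e | e⟩
    · exact Or.inl e
    · exact Or.inr (Or.inl e)
    · exact Or.inr (Or.inr e)
  rcases key with ⟨Z, e⟩ | ⟨Z, e⟩ | e
  · exact sta2_first h.sta e
  · exact end2_last h.en e
  · exact h.not_bv e

/-- the inner words of a gadget J3V -/
theorem _root_.Pool.OddHC.TyJ3V.inn (h : TyJ3V F g) : ∃ (R B S : BinaryTree Unit) (w0 : X k), SqD k R B S ∧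
    J3OK R B S w0 ∧ F = {cyc (sX R B S w0 0), cyc (sX R B S w0 1), cyc (sX R B S w0 2)} ∧
    ∀ p ∈ g.arcs, ∃ i ∈ [3, 6, 8], innA p = {TT (sX R B S w0 i)} := by
  obtain ⟨R, B, S, w0, h1, hp, rfl, rfl⟩ := h
  refine ⟨R, B, S, w0, h1, hp, rfl, ?_⟩
  intro p hp
  have hp' : p = (sX R B S w0 3, sX R B S w0 12) ∨ p = (sX R B S w0 6, sX R B S w0 15) ∨
      p = (sX R B S w0 8, sX R B S w0 14) := hp
  rcases hp' with rfl | rfl | rfl
  · exact ⟨3, by simp, rfl⟩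
  · exact ⟨6, by simp, rfl⟩
  · exact ⟨8, by simp, rfl⟩

theorem htc_z {R B S : BinaryTree Unit} (h : SqD k R B S) (w0 : X k) : htc (cyc (sX R B S w0 0)) = OddHC.ht R := by
  change (OddHC.cont (sX R B S w0 0).1).sup = _
  rw [h.cont0, h.supz]

theorem _root_.Pool.OddHC.TyJ3V.inJ (h : TyJ3V F g) : ∃ n, (∀ c ∈ F, htc c = n) ∧
    ∀ p ∈ g.arcs, ∀ w ∈ innA p, InJ n w.1 := by
  have hh := h.htg
  obtain ⟨R, B, S, w0, h1, hp, rfl, h2⟩ := h.inn
  refine ⟨OddHC.ht R, ?_, ?_⟩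
  · intro c hc
    rw [← htc_z h1 w0]
    exact hh c hc _ (Or.inl rfl)
  · intro p hp w hw
    obtain ⟨i, hi, e⟩ := h2 p hp
    rw [e] at hw
    obtain rfl : w = _ := hw
    exact h1.inJ w0 hi

theorem InJ.row (h : TyJ3V F g) {C : Finset (X k)} (hC : ∀ n (w : X k), (∀ c ∈ F, htc c = n) → InJ n w.1 → w ∉ C) :
    ∀ p ∈ g.arcs, ∀ w ∈ innA p, w ∉ C := by
  obtain ⟨n, h0, h1⟩ := h.inJ
  exact fun p hp w hw => hC n w h0 (h1 p hp w hw)

theorem lp_app (n : ℕ) : lp (n + 1) = app (lp n) (.nil △ .nil) := by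
  induction n with
  | zero => rfl
  | succ n ih =>
    change BinaryTree.nil △ lp (n + 1) = _
    conv_lhs => rw [ih]
    rfl

/-- **I-J3V-L** -/
theorem _root_.Pool.OddHC.TyJ3V.inner_Lpq {p q : ℕ} {R : BinaryTree Unit} (h : TyJ3V F g)
    (h' : IsTri (lp (q + 1)) R (lp (p + 1)) F' g') : ∀ p ∈ g.arcs, ∀ w ∈ innA p, w ∉ g'.B := by
  refine InJ.row h fun n w _ h1 => h1.not_tri h' ?_
  rintro Y (rfl | rfl | rfl)
  · left; exact ⟨_, rfl⟩
  · right; left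
    refine ⟨app R (lp (p + 1) △ lp q), ?_⟩
    unfold w1
    rw [lp_app q, H1.app_assoc]
    rfl
  · left; exact ⟨_, rfl⟩

theorem _root_.Pool.OddHC.TyJ3V.inner_L (h : TyJ3V F g) (h' : TyL F' g') :
    ∀ p ∈ g.arcs, ∀ w ∈ innA p, w ∉ g'.B := by
  obtain ⟨R', e, _, _, _, _, ht⟩ := h'
  exact h.inner_Lpq (p := 0) (q := 0) ht

/-! ### `bv` -/

theorem bv_mono {n m : ℕ} {t : BinaryTree Unit} (h : bv n t) (hm : n ≤ m) : bv m t :=
  ⟨vb_mono h.1 hm, vb_mono h.2 hm⟩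

theorem bv_app {n : ℕ} {P Q : BinaryTree Unit} (hP : bv n P) (hQ : bv n Q) : bv n (app P Q) := by
  refine ⟨vb_app hP.1 hQ.1, ?_⟩
  rw [Tsq.mir_app]
  exact vb_app hQ.2 hP.2

theorem bv_nil (n : ℕ) : bv n (.nil : BinaryTree Unit) := ⟨nb_nil.vb n, nb_nil.vb n⟩

/-- `(A) C` -/
theorem bv_node {n : ℕ} {A C : BinaryTree Unit} (hA : bv n A) (hC : bv (n + 1) C) : bv (n + 1) (A △ C) := by
  refine ⟨vb_node hA.1 hC.1, ?_⟩
  rw [Tsq.mir_node]
  exact vb_app hC.2 (vb_node hA.2 (nb_nil.vb _))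

/-- `() C` -/
theorem bv_leaf {n : ℕ} {C : BinaryTree Unit} (hC : bv n C) : bv n (.nil △ C) := by
  refine ⟨vb_tower nb_nil hC.1, ?_⟩
  rw [Tsq.mir_node]
  exact vb_app hC.2 (vb_tower nb_nil (nb_nil.vb _))

/-- no factor `1 0 1` in both orientations -/
def nbb (t : BinaryTree Unit) : Prop := nb t ∧ nb (Tsq.mir t)

theorem nbb.bv {t : BinaryTree Unit} (h : nbb t) (n : ℕ) : bv n t := ⟨h.1.vb n, h.2.vb n⟩

/-- `(A) C`, `A` without beads -/
theorem bv_tower {n : ℕ} {A C : BinaryTree Unit} (hA : nbb A) (hC : bv n C) : bv n (A △ C) := by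
  refine ⟨vb_tower hA.1 hC.1, ?_⟩
  rw [Tsq.mir_node]
  exact vb_app hC.2 (vb_tower hA.2 (nb_nil.vb _))

theorem mir_ch (m : ℕ) : Tsq.mir (ch m) = ch m := by
  rw [ch_eq, HM.mir_pc]

theorem nbb_ch (m : ℕ) : nbb (ch m) := ⟨nb_ch m, by rw [mir_ch]; exact nb_ch m⟩

theorem nbb_nil : nbb (.nil : BinaryTree Unit) := nbb_ch 0

theorem bv_w1 {n : ℕ} {P Q R : BinaryTree Unit} (hP : bv (n + 1) P) (hQ : bv n Q) (hR : bv (n + 1) R) :
    bv (n + 1) (w1 P Q R) := bv_app hP (bv_node hQ hR)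

theorem hg_mir {m : ℕ} {t : BinaryTree Unit} (h : ∀ x ∈ OddHC.cont t, m ≤ x) : ∀ x ∈ OddHC.cont (Tsq.mir t), m ≤ x := by
  rw [HM.cont_mir]
  exact h

theorem bv_ch (n m : ℕ) : bv n (ch m) := (nbb_ch m).bv n

/-- **I-J3V-K** (`S(())`; the other two words end or start with `()`) -/
theorem _root_.Pool.OddHC.TyJ3V.inner_K (h : TyJ3V F g) (h' : TyK S F' g') (hS : bv 1 S) :
    ∀ p ∈ g.arcs, ∀ w ∈ innA p, w ∉ g'.B := by
  refine InJ.row h fun n w _ h1 => h1.not_tri (P := .nil) (Q := S) (R := .nil △ .nil) h' ?_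
  rintro Y (rfl | rfl | rfl)
  · right; left; exact ⟨S △ .nil, rfl⟩
  · right; right
    exact bv_app hS (bv_tower (nbb_ch 1) (bv_nil 1))
  · left; exact ⟨_, rfl⟩

/-- **I-J3V-K'** (`(())S`) -/
theorem _root_.Pool.OddHC.TyJ3V.inner_K' (h : TyJ3V F g) (h' : TyK' S F' g') (hS : bv 1 S) :
    ∀ p ∈ g.arcs, ∀ w ∈ innA p, w ∉ g'.B := by
  refine InJ.row h fun n w _ h1 => h1.not_tri (P := .nil △ .nil) (Q := S) (R := .nil) h' ?_
  rintro Y (rfl | rfl | rfl)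
  · left; exact ⟨_, rfl⟩
  · right; left
    exact ⟨app S (.nil △ .nil), by rw [H1.app_assoc]; rfl⟩
  · right; right
    exact bv_tower (nbb_ch 1) hS

/-- **I-J3V-Cr** -/
theorem _root_.Pool.OddHC.TyJ3V.inner_Cr {c : ℕ} (h : TyJ3V F g) (h' : TyC c S F' g') (hS : bv 0 S) :
    ∀ p ∈ g.arcs, ∀ w ∈ innA p, w ∉ g'.B := by
  refine InJ.row h fun n w _ h1 => h1.not_tri (P := .nil) (Q := S) (R := ch c) h' ?_
  rintro Y (rfl | rfl | rfl)
  · right; right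
    exact bv_w1 (bv_nil 1) hS (bv_ch 1 c)
  · right; right
    exact bv_w1 (bv_mono hS (by omega)) (bv_ch 0 c) (bv_nil 1)
  · right; right
    exact bv_w1 (bv_ch 1 c) (bv_nil 0) (bv_mono hS (by omega))

/-- **I-J3V-Cl** -/
theorem _root_.Pool.OddHC.TyJ3V.inner_Cl {c : ℕ} (h : TyJ3V F g) (h' : TyC' c S F' g') (hS : bv 0 S) :
    ∀ p ∈ g.arcs, ∀ w ∈ innA p, w ∉ g'.B := by
  refine InJ.row h fun n w _ h1 => h1.not_tri (P := ch c) (Q := S) (R := .nil) h' ?_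
  rintro Y (rfl | rfl | rfl)
  · right; right
    exact bv_w1 (bv_ch 1 c) hS (bv_nil 1)
  · right; right
    exact bv_w1 (bv_mono hS (by omega)) (bv_nil 0) (bv_ch 1 c)
  · right; right
    exact bv_w1 (bv_nil 1) (bv_ch 0 c) (bv_mono hS (by omega))

/-! ### Bare windows -/

/-- all words of a bare window, both orientations -/
theorem bv_W {R B S : BinaryTree Unit} (hR : nbb R) (hB : nbb B) (hS : nbb S) (q : ℕ) {i : ℕ} (hi : i < 20) :
    bv 1 (W R (ch (q + 1)) B S i) := by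
  have n1 := bv_nil 1
  have n0 := bv_nil 0
  have c1 := bv_ch 1 (q + 1)
  have c0 := bv_ch 0 (q + 1)
  have l1 : bv 1 (.nil △ .nil : BinaryTree Unit) := bv_leaf n1
  have l0 : bv 0 (.nil △ .nil : BinaryTree Unit) := bv_leaf n0
  have r1 := hR.bv 1
  have r0 := hR.bv 0
  have b1 := hB.bv 1
  have b0 := hB.bv 0
  have s1 := hS.bv 1
  have s0 := hS.bv 0
  interval_cases i
  · exact bv_app r1 (bv_tower (nbb_ch (q + 2)) n1)
  · exact bv_app r1 (bv_leaf (bv_app c1 l1))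
  · exact bv_leaf (bv_app r1 (bv_leaf c1))
  · exact bv_node (bv_app r0 (bv_leaf c0)) n1
  · exact bv_node (bv_app c0 l0) r1
  · exact bv_tower (nbb_ch (q + 1)) (bv_leaf r1)
  · exact bv_tower hR (bv_tower (nbb_ch (q + 1)) n1)
  · exact bv_app c1 (bv_node (bv_leaf r0) n1)
  · exact bv_app c1 (bv_leaf (bv_tower hR n1))
  · exact bv_node (bv_tower hR n0) c1
  · exact bv_app b1 (bv_tower (nbb_ch (q + 2)) s1)
  · exact bv_app b1 (bv_leaf (bv_app c1 (bv_leaf s1)))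
  · exact bv_tower hS (bv_app b1 (bv_leaf c1))
  · exact bv_app s1 (bv_node (bv_app b0 (bv_leaf c0)) n1)
  · exact bv_node (bv_app c0 (bv_leaf s0)) b1
  · exact bv_tower (nbb_ch (q + 1)) (bv_tower hS b1)
  · exact bv_app s1 (bv_tower hB (bv_tower (nbb_ch (q + 1)) n1))
  · exact bv_app c1 (bv_node (bv_tower hS b0) n1)
  · exact bv_app c1 (bv_leaf (bv_app s1 (bv_tower hB n1)))
  · exact bv_node (bv_app s0 (bv_tower hB n0)) c1

theorem bv_mir {n : ℕ} {t : BinaryTree Unit} (h : bv n t) : bv n (Tsq.mir t) :=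
  ⟨h.2, by rw [Tsq.mir_mir]; exact h.1⟩

theorem nbb_hv {t : BinaryTree Unit} (h : ∀ x ∈ OddHC.cont t, 3 ≤ x) : nbb t :=
  ⟨nb_hv (hv_of_cont h), nb_hv (hv_of_cont (hg_mir h))⟩

/-- `S0 ()^m`, `S0` heavy -/
theorem bv_S {S0 : BinaryTree Unit} (h : ∀ x ∈ OddHC.cont S0, 3 ≤ x) (m : ℕ) : bv 0 (app S0 (lp m)) := by
  refine bv_app ((nbb_hv h).bv 0) ?_
  induction m with
  | zero => exact bv_nil 0
  | succ m ih => exact bv_leaf ih

theorem _root_.Pool.OddHC.HM.NodeM.bvW {q : ℕ} {R B S : BinaryTree Unit} (h : HM.NodeM k q R B S) {i : ℕ} (hi : i < 20) :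
    bv 1 (W R (ch (q + 1)) B S i) := by
  have h1 := h.part
  have h2 := h.eq
  have hR : ∀ x ∈ OddHC.cont R, 3 ≤ x := fun x hx => by
    have := h1 x hx
    omega
  refine bv_W (nbb_hv hR) (nbb_hv ?_) (nbb_hv ?_) q hi
  · intro x hx
    apply hR
    rw [← h2]
    exact Multiset.mem_add.2 (Or.inl hx)
  · intro x hx
    apply hR
    rw [← h2]
    exact Multiset.mem_add.2 (Or.inr hx)

/-- **the words of a bare window, right or mirrored** -/
theorem InJ.not_bare (h : InJ n w.1) {q : ℕ} {R B S : BinaryTree Unit} (h' : HM.NodeM k q R B S) {i : ℕ}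
    (hi : i < 20) (e : w.1 = W R (ch (q + 1)) B S i ∨ w.1 = Tsq.mir (W R (ch (q + 1)) B S i)) : False := by
  have h1 := h'.bvW hi
  rcases e with e | e
  · exact h.not_bv (e ▸ h1)
  · exact h.not_bv (e ▸ bv_mir h1)

theorem mX_W {q : ℕ} {R B S : BinaryTree Unit} (h' : HM.NodeM k q R B S) (w0 : X k) {i : ℕ} (hi : i < 20) :
    (HM.mX R B S q w0 i).1 = Tsq.mir (W R (ch (q + 1)) B S i) := by
  change Tsq.mir (wX R B S q w0 i).1 = _
  rw [wX_eq h'.dat h'.size w0 hi]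

/-- **I-J3V-A0** -/
theorem _root_.Pool.OddHC.TyJ3V.inner_A0 (h : TyJ3V F g) (h' : TyA0 F' g') :
    ∀ p ∈ g.arcs, ∀ w ∈ innA p, w ∉ g'.B := by
  refine InJ.row h fun n w _ h1 hw => ?_
  obtain ⟨q, R, B, S, w0, h2, hne, rfl, rfl⟩ := h'
  obtain ⟨i, hi, rfl⟩ := mem_gad20M.1 hw
  exact h1.not_bare h2 hi (Or.inr (mX_W h2 w0 hi))

/-- **I-J3V-B0** (merged windows) -/
theorem _root_.Pool.OddHC.TyJ3V.inner_B0 (h : TyJ3V F g) (h' : TyB0 F' g') :
    ∀ p ∈ g.arcs, ∀ w ∈ innA p, w ∉ g'.B := by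
  refine InJ.row h fun n w _ h1 hw => ?_
  obtain ⟨q, R, B, S, w0, h2, hne, h12, h18, rfl, rfl⟩ := h'
  obtain ⟨i, hi, _, rfl⟩ := mem_gadSM.1 hw
  exact h1.not_bare h2 hi (Or.inr (mX_W h2 w0 hi))

/-- right bare windows -/
theorem _root_.Pool.OddHC.TyJ3V.inner_bareR (h : TyJ3V F g) {q : ℕ} {R B S : BinaryTree Unit} {w0 : X k}
    (h' : HM.NodeM k q R B S) : ∀ p ∈ g.arcs, ∀ w ∈ innA p, ∀ i < 20, w ≠ wX R B S q w0 i := by
  obtain ⟨n, _, h1⟩ := h.inJ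
  intro p hp w hw i hi e
  refine (h1 p hp w hw).not_bare h' hi (Or.inl ?_)
  rw [e, wX_eq h'.dat h'.size w0 hi]

/-- **I-J3V-T**, J3V of height at least 4 (empty) -/
theorem _root_.Pool.OddHC.TyJ3V.inner_T (h : TyJ3V F g) (h4 : ∀ c ∈ F, 4 ≤ htc c) (h' : TyT F' g')
    (hle : ∀ c ∈ F, ∀ d ∈ F', htc c ≤ htc d) : ∀ p ∈ g.arcs, ∀ w ∈ innA p, w ∉ g'.B := by
  exfalso
  have h3 := h'.ht3
  obtain ⟨R, B, S, w0, h1, hp, hF, _⟩ := h.inn
  obtain ⟨b, m, a, w0', h1', rfl, rfl⟩ := h'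
  have hz : cyc (sX R B S w0 0) ∈ F := by rw [hF]; exact Or.inl rfl
  have e1 := h4 _ hz
  have e2 := h3 _ rfl
  have e3 := hle _ hz _ rfl
  omega

end J3

end Pool.OddHC
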