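import Pool.Agent.Work.MP_8f87b2_h50.RqJ2
import Pool.Agent.Work.MP_8f87b2_h13.TyRq
import Pool.Agent.Work.MP_8f87b2_h35.TyRqE
import Pool.Agent.Work.MP_8f87b2_h17.TyJ2B

/-!
# MP_8f87b2_co: rows I-Rq-J2B, I-Sq-J2B, I-RqE-J2B (and J3V)

`RIn q F g`: the inner words of `g` are `T(w_i)` of a right bare window whose `z` is in `F`. `JWd R B S A`: all words of `A` are
words of the block of `SqD k R B S`.
-/

set_option autoImplicit false

namespace Pool.OddHC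

open BinaryTree Equiv Multiset Pool.Agent.Work.MP_8f87b2_co

namespace J3

open H1 HM

variable {k q : ℕ} {R B S : BinaryTree Unit} {F F' : Set (Cyc k)} {g g' : DG k} {A : Finset (X k)}

/-- the inner words are those of right bare windows -/
def RIn (q : ℕ) (F : Set (Cyc k)) (g : DG k) : Prop :=
  ∀ p ∈ g.arcs, ∃ (R B S : BinaryTree Unit) (w0 : X k) (i : ℕ), NodeM k q R B S ∧ i ∈ [0, 1, 3, 6, 8, 9] ∧
    p.1 = wX R B S q w0 i ∧ cyc (wX R B S q w0 0) ∈ F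

/-- words of the block of `R` -/
def JWd (R B S : BinaryTree Unit) (A : Finset (X k)) : Prop := ∀ w ∈ A, ∃ j < 20, w.1 = W R .nil B S j

theorem _root_.Pool.OddHC.TyRq.rin (h : TyRq q F g) : RIn q F g := h.inn

theorem _root_.Pool.OddHC.TySq.rin (h : TySq q F g) : RIn q F g := by
  intro p hp
  obtain ⟨R, B, S, w0, i, h1, hi, e, hF⟩ := h.inn p hp
  refine ⟨R, B, S, w0, i, h1, ?_, e, hF⟩
  simp only [List.mem_cons, List.not_mem_nil, or_false] at hi ⊢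
  omega

theorem _root_.Pool.OddHC.TyRqE.rin (h : TyRqE q F g) : RIn q F g := by
  intro p hp
  obtain ⟨R, B, S, w0, i, h1, hi, e, hF⟩ := h.inn p hp
  refine ⟨R, B, S, w0, i, h1, ?_, e, hF⟩
  simp only [List.mem_cons, List.not_mem_nil, or_false] at hi ⊢
  omega

theorem _root_.Pool.OddHC.TyJ2R.jwd {R B S : BinaryTree Unit} (h : TyJ2R R B S F g) : JWd R B S g.B := by
  obtain ⟨w0, h1, h2, rfl, rfl⟩ := h
  intro w hw
  obtain ⟨j, hj, rfl⟩ := mem_gadJB.1 hw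
  exact ⟨j, hj, h1.word w0 hj⟩

theorem ht0 {R B S : BinaryTree Unit} (h : NodeM k q R B S) (w0 : X k) : htc (cyc (wX R B S q w0 0)) = OddHC.ht R := by
  rw [htc_cyc, wX_eq h.dat h.size w0 (by norm_num)]
  change OddHC.ht (app R (ch (q + 3))) = _
  have := h.top
  rw [ht_app, ch_ht]
  omega

/-- **exact list** -/
theorem RIn.list (h : RIn q F g) (hd : SqD k R B S) (hA : JWd R B S A) (hle : ∀ c ∈ F, htc c ≤ OddHC.ht R) :
    ∀ p ∈ g.arcs, ∀ w ∈ innA p, w ∈ A → B ≠ .nil ∧ w.1 = W R .nil B S 19 ∨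
      1 ≤ q ∧ (w.1 = W R .nil B S 9 ∨ w.1 = W R .nil B S 17) := by
  intro p hp w hw hwA
  obtain ⟨R1, B1, S1, w0, i, h1, hi, e, hF⟩ := h p hp
  obtain rfl : w = TT p.1 := hw
  obtain ⟨j, hj, e1⟩ := hA _ hwA
  have h2 := hle _ hF
  rw [ht0 h1 w0] at h2
  have e2 := e1
  rw [e] at e2
  rcases h1.innJ w0 hi hd h2 hj e2 with ⟨_, rfl, hB⟩ | ⟨_, hq, rfl | rfl | ⟨rfl, hB⟩⟩
  · exact Or.inl ⟨hB, e1⟩
  · exact Or.inr ⟨hq, Or.inl e1⟩
  · exact Or.inr ⟨hq, Or.inr e1⟩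
  · exact Or.inl ⟨hB, e1⟩

/-- **exact list, merged windows** (no arc at word 9) -/
theorem _root_.Pool.OddHC.TySq.list (h : TySq q F g) (hd : SqD k R B S) (hA : JWd R B S A)
    (hle : ∀ c ∈ F, htc c ≤ OddHC.ht R) :
    ∀ p ∈ g.arcs, ∀ w ∈ innA p, w ∈ A → B ≠ .nil ∧ w.1 = W R .nil B S 19 := by
  intro p hp w hw hwA
  obtain ⟨R1, B1, S1, w0, i, h1, hi, e, hF⟩ := h.inn p hp
  obtain rfl : w = TT p.1 := hw
  obtain ⟨j, hj, e1⟩ := hA _ hwA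
  have h2 := hle _ hF
  rw [ht0 h1 w0] at h2
  have e2 := e1
  rw [e] at e2
  have hi2 : i ∈ [0, 1, 3, 6, 8, 9] := by
    simp only [List.mem_cons, List.not_mem_nil, or_false] at hi ⊢
    omega
  have h9 : i ≠ 9 := by
    simp only [List.mem_cons, List.not_mem_nil, or_false] at hi
    omega
  rcases h1.innJ w0 hi2 hd h2 hj e2 with ⟨_, rfl, hB⟩ | ⟨h, _⟩
  · exact ⟨hB, e1⟩
  · exact absurd h h9

/-- **sharp `R`: no hit** -/
theorem RIn.sharp (h : RIn q F g) (hd : SqD k R B S) (hs : Sharp R) (hA : JWd R B S A)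
    (hle : ∀ c ∈ F, htc c ≤ OddHC.ht R) : ∀ p ∈ g.arcs, ∀ w ∈ innA p, w ∉ A := by
  intro p hp w hw hwA
  obtain ⟨R1, B1, S1, w0, i, h1, hi, e, hF⟩ := h p hp
  obtain rfl : w = TT p.1 := hw
  obtain ⟨j, hj, e1⟩ := hA _ hwA
  have h2 := hle _ hF
  rw [ht0 h1 w0] at h2
  rw [e] at e1
  exact h1.innJ_sharp w0 hi hd hs h2 hj e1

/-- **one maximum in the words 9, 17, 19: no hit** -/
theorem RIn.oneTop (h : RIn q F g) (hd : SqD k R B S)
    (hs : ∀ j, j = 9 ∨ j = 17 ∨ j = 19 → OneTop (W R .nil B S j)) (hA : JWd R B S A)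
    (hle : ∀ c ∈ F, htc c ≤ OddHC.ht R) : ∀ p ∈ g.arcs, ∀ w ∈ innA p, w ∉ A := by
  intro p hp w hw hwA
  obtain ⟨R1, B1, S1, w0, i, h1, hi, e, hF⟩ := h p hp
  obtain rfl : w = TT p.1 := hw
  obtain ⟨j, hj, e1⟩ := hA _ hwA
  have h2 := hle _ hF
  rw [ht0 h1 w0] at h2
  rw [e] at e1
  rcases h1.innJ w0 hi hd h2 hj e1 with ⟨rfl, rfl, hB⟩ | ⟨rfl, hq, hj⟩
  · have h3 := vly69 h1 w0 (Or.inl rfl)
    rw [e1] at h3
    exact h3.not (hs 19 (by simp))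
  · have h3 := vly69 h1 w0 (Or.inr rfl)
    rw [e1] at h3
    exact h3.not (hs j (by tauto))

/-- rows against J2B with sharp phase -/
theorem RIn.J2R (h : RIn q F g) (h' : TyJ2R R B S F' g') (hs : Sharp R) (hle : ∀ c ∈ F, ∀ d ∈ F', htc c ≤ htc d) :
    ∀ p ∈ g.arcs, ∀ w ∈ innA p, w ∉ g'.B := by
  refine h.sharp h'.sqd hs h'.jwd ?_
  intro c hc
  obtain ⟨w0, h1, h2, rfl, rfl⟩ := h'
  have := hle c hc _ (Or.inl rfl)
  rwa [htc_z h1 w0] at this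

end J3

end Pool.OddHC
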