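import Pool.Agent.Work.MP_8f87b2_h50.RqJ2

/-!
# MP_8f87b2_co: inner words of ANY right window without parts 1, 2 against the 20 words `W R nil B S j` of `SqD` (J2B, J3V)

`winJ`: `R` with all parts at least 3, `4 <= ht R`, `q + 3 <= ht R` (nothing about the block `B`, `S` of the window is used).
-/

set_option autoImplicit false
set_option linter.unusedSimpArgs false

namespace Pool.OddHC

open BinaryTree Equiv Multiset Pool.Agent.Work.MP_8f87b2_co

namespace J3

open H1 HM SRun JVi

variable {k q : ℕ} {R B S R' B' S' : BinaryTree Unit} {a b : List Bool}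

/-- the runs around the first maximum -/
theorem ZY3 (hR : R ≠ .nil) (hp : ∀ x ∈ OddHC.cont R, 3 ≤ x) (ht : 3 < Tsq.ht R) (h : FM R a b) :
    ∃ ζ η : List ℕ, b.map not = ex true ζ ∧ false :: a.map not = ex false η ∧
    Odd ζ.length ∧ Odd η.length ∧ HM.Ge 3 ζ ∧ HM.Ge 3 η := by
  obtain ⟨s1, s2, s3, _⟩ := ac_spec R hR
  obtain ⟨rfl, rfl⟩ := h.uniq ⟨s1, s2, s3⟩
  obtain ⟨y, l, f1, f2, f3, f4, f5⟩ := aa_runs (c := 3) (by omega) R hR hp
  obtain ⟨z, m, g1, g2, g3, g4, g5⟩ := cc_runs (c := 3) (by omega) R hR hp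
  have hB : ∀ x ∈ OddHC.cont (Tsq.sq R).2, 3 ≤ x := by
    intro x hx
    apply hp
    rw [← HM.sq_cont hR]
    exact Multiset.mem_add.2 (Or.inl hx)
  obtain ⟨rB, k1, k2, k3, _⟩ := hv_runs (c := 3) (by omega) _ hB
  have hy : 3 ≤ y := by
    by_cases hl : l = []
    · have := f4 hl
      omega
    · exact f5 hl
  have hz : 3 ≤ z := by
    by_cases hl : m = []
    · have := g4 hl
      omega
    · exact g5 hl
  have hodd : Odd (m ++ [z + 1]).length := by
    rw [List.length_append, List.length_singleton]
    exact g2.add_one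
  refine ⟨(m ++ [z + 1]) ++ rB, (y + 1) :: l, ?_, ?_, ?_, ?_, ?_, ?_⟩
  · change co (H1.cc R ++ false :: wd (Tsq.sq R).2) = _
    rw [co_app, co_cons, g1, ex_co, k1, ex_co, ex_odd hodd]
    exact ex_last g2 true z _
  · change false :: co (aa R) = _
    rw [f1, ex_co]
    exact ex_succ false y l
  · rw [List.length_append]
    exact hodd.add_even k2
  · rw [List.length_cons]
    exact f2.add_one
  · intro w hw
    rw [List.mem_append, List.mem_append, List.mem_singleton] at hw
    rcases hw with (hw | rfl) | hw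
    · exact g3 w hw
    · omega
    · exact k3 w hw
  · intro w hw
    rw [List.mem_cons] at hw
    rcases hw with rfl | hw
    · omega
    · exact f3 w hw

theorem not10w (hd : SqD k R' B' S') (hR : R ≠ .nil) (hp : ∀ x ∈ OddHC.cont R, 3 ≤ x) (ht : 3 < Tsq.ht R)
    (h : FM R a b) {s t : ℕ} (e : wd (W R' .nil B' S' 10) = b.map not ++ (List.replicate s true ++
      ([false, false, true, true] ++ (List.replicate t false ++ (false :: a.map not))))) : False := by
  obtain ⟨ζ, η, e1, e2, o1, o2, g1, g2⟩ := ZY3 hR hp ht h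
  have hz0 : ζ ≠ [] := by rintro rfl; simp at o1
  obtain ⟨ζ', z, rfl⟩ := exists_snoc hz0
  have hz1 : Even ζ'.length := by
    rw [List.length_append, List.length_singleton] at o1
    by_contra h5
    rw [Nat.not_even_iff_odd] at h5
    exact (Nat.not_odd_iff_even.2 h5.add_one) o1
  cases η with
  | nil => simp at o2
  | cons x η' =>
    refine not10 hd (ζ := ζ' ++ [z + s]) (η := (t + x) :: η') (by simpa using o1) ?_ ?_ ?_
    · intro y hy
      rw [List.mem_append, List.mem_singleton] at hy
      rcases hy with hy | rfl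
      · exact g1 y (by simp [hy])
      · have := g1 z (by simp)
        omega
    · intro y hy
      rw [List.mem_cons] at hy
      rcases hy with rfl | hy
      · have := g2 x (by simp)
        omega
      · exact g2 y (by simp [hy])
    · rw [e, e1, e2]
      have o3 : Odd (ζ' ++ [z + s]).length := by simpa using o1
      have em : ∀ l, ex false ([2, 2] ++ l) = ex false [2, 2] ++ ex false l := fun l =>
        ex_even (by decide) false l
      have nt : (!true) = false := rfl
      rw [ex_odd o3, nt, em, ex_even hz1, ex_even hz1]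
      have r1 : List.replicate (z + s) true = List.replicate z true ++ List.replicate s true :=
        (List.replicate_append_replicate).symm
      have r2 : List.replicate (t + x) false = List.replicate t false ++ List.replicate x false :=
        (List.replicate_append_replicate).symm
      simp only [ex, List.append_nil, Bool.not_true, Bool.not_false, r1, r2, List.append_assoc]
      rfl

/-- **inner words of the right windows without parts 1, 2 against the words of `SqD`: exact list** -/
theorem winJ (hp : ∀ x ∈ OddHC.cont R, 3 ≤ x) (h4 : 4 ≤ OddHC.ht R) (hq : q + 3 ≤ OddHC.ht R) {x : X k} {i : ℕ}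
    (hi : i ∈ [0, 1, 3, 6, 8, 9]) (hx : x.1 = W R (ch (q + 1)) B S i) (hd : SqD k R' B' S')
    (hle : OddHC.ht R ≤ OddHC.ht R') {j : ℕ} (hj : j < 20) (e : (TT x).1 = W R' .nil B' S' j) :
    (i = 6 ∧ j = 19 ∧ B' ≠ .nil) ∨ (i = 9 ∧ 1 ≤ q ∧ (j = 9 ∨ j = 17 ∨ (j = 19 ∧ B' ≠ .nil))) := by
  have hR0 : R ≠ .nil := by
    rintro rfl
    rw [OddHC.ht] at h4
    omega
  have hT : Tsq.ht R = OddHC.ht R := H1.ht_eq R
  obtain ⟨a, b, hF⟩ := hg_FMT (g := 3) (by omega) (hg_of_cont (by omega) hp) (by rw [hT]; omega)
  have hn : Tsq.ht (.nil : BinaryTree Unit) = 0 := rfl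
  have hc : ∀ n, Tsq.ht (ch n) = n := fun n => by rw [H1.ht_eq, ch_ht]
  have hbv := (hd.bvJ hj).1
  have m1 : ∀ l : List Bool, (l.map not).count true = l.count false := Tsq.count_not_true
  have m2 : ∀ l : List Bool, (l.map not).count false = l.count true := Tsq.count_not_false
  by_cases hh : i ∈ [1, 3, 8] ∨ (i = 9 ∧ q = 0)
  · exfalso
    rcases hh with hh | ⟨rfl, rfl⟩
    · have h1 := inner_hbq' hF.fm hR0 (by rw [hT]; exact hq) (by rw [hT]; exact h4) i hh hx
      rw [e] at h1
      exact (vb.not_hb hbv) h1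
    · have h1 := (inner_hb (B := B) (S := S) hF.fm (by rw [hT]; exact h4) (x := x) 9 (by simp) hx).1
      rw [e] at h1
      exact (vb.not_hb hbv) h1
  have hi2 : i = 0 ∨ i = 6 ∨ (i = 9 ∧ 1 ≤ q) := by
    simp only [List.mem_cons, List.not_mem_nil, or_false] at hi hh
    omega
  obtain ⟨u, v, hW⟩ := FMT_W (q := q) (B := B) (S := S) hF (by rw [hT]; exact hq) i hi
  rw [← hx] at hW
  obtain ⟨w1, w2⟩ := hW.inner
  have hin := notJ (g0 := 3) ⟨le_rfl, w1, w2⟩ hj e
  have hR := (OddHC.ht_eq R).symm
  have cc : ∀ n, OddHC.cont (ch (n + 1)) = {n + 1} := fun n => by rw [ch_eq]; exact cont_pc n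
  have s1 : (raise (OddHC.cont R)).sup = OddHC.ht R + 1 := by rw [sup_raise, hR]
  have p1 : ∀ x ∈ raise (OddHC.cont R), 3 ≤ x := by
    intro x hx
    rcases raise_mem hx with h1 | h1
    · omega
    · exact hp x h1
  have p2 : ∀ x ∈ raise (raise (OddHC.cont R)), 3 ≤ x := by
    intro x hx
    rcases raise_mem hx with h1 | h1
    · omega
    · exact p1 x h1
  have z : ∀ (M : Multiset ℕ) (p : ℕ), (∀ x ∈ M, 3 ≤ x) → p < 3 → M.count p = 0 := by
    intro M p hM hp
    rw [Multiset.count_eq_zero]
    intro hx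
    have := hM p hx
    omega
  have o11 : 1 ≤ (OddHC.cont (W R' .nil B' S' 11)).count 1 := by
    have e1 : W R' .nil B' S' 11 = app B' (.nil △ (.nil △ S')) := rfl
    rw [e1, cont_app, cont_node, cont_nil, raise_zero]
    simp
  have o10 : 1 ≤ (OddHC.cont (W R' .nil B' S' 10)).count 2 := by
    have e1 : W R' .nil B' S' 10 = app B' ((.nil △ .nil) △ S') := rfl
    have e2 : raise (OddHC.cont (.nil △ .nil : BinaryTree Unit)) = {2} := by
      have : OddHC.cont (.nil △ .nil : BinaryTree Unit) = {1} := by rw [cont_node, cont_nil, raise_zero, add_zero]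
      rw [this]
      unfold raise
      simp
    rw [e1, cont_app, cont_node, e2]
    simp
  have hcx : OddHC.cont (TT x).1 = OddHC.cont (W R (ch (q + 1)) B S i) := by rw [cont_TT, hx]
  obtain ⟨j9, j17, j19⟩ := htJ hd
  have hBR := hd.htB
  rcases hi2 with rfl | rfl | ⟨rfl, hq1⟩
  · exfalso
    have c0 : OddHC.cont (TT x).1 = OddHC.cont R + {q + 3} := by
      rw [hcx]
      change OddHC.cont (app R (ch (q + 3))) = _
      rw [cont_app, cc]
    have t0 : OddHC.ht (TT x).1 = OddHC.ht R := by
      rw [OddHC.ht_eq, c0, Multiset.sup_add, Multiset.sup_singleton, hR]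
      exact max_eq_left hq
    rw [e] at c0 t0
    rcases hin with rfl | rfl | ⟨hB, rfl | rfl | rfl⟩
    · omega
    · omega
    · rw [c0, Multiset.count_add, z _ 2 hp (by omega), Multiset.count_singleton, if_neg (by omega)] at o10
      omega
    · rw [c0, Multiset.count_add, z _ 1 hp (by omega), Multiset.count_singleton, if_neg (by omega)] at o11
      omega
    · have := le_max_left (OddHC.ht R') (OddHC.ht B' + 1)
      omega
  · left
    have c6 : OddHC.cont (TT x).1 = raise (OddHC.cont R) + {q + 2} := by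
      rw [hcx]
      change OddHC.cont (R △ ch (q + 2)) = _
      rw [cont_node, cc]
    have t6 : OddHC.ht (TT x).1 = OddHC.ht R + 1 := by
      rw [OddHC.ht_eq, c6, Multiset.sup_add, Multiset.sup_singleton, s1]
      exact max_eq_left (by omega)
    rw [e] at c6 t6
    rcases hin with rfl | rfl | ⟨hB, rfl | rfl | rfl⟩
    · omega
    · omega
    · exfalso
      by_cases hq0 : q = 0
      · subst hq0
        have k1 := hF.fm.node (Z := ch 2) (by rw [hc]; omega)
        have e' : x.1 = (R △ ch 2) := hx
        rw [← e'] at k1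
        refine not10w hd hR0 hp (by rw [hT]; omega) hF.fm (s := 1) (t := 1) ?_
        rw [← e, k1.wdT]
        simp [ch, wd_node, wd]
      · rw [c6, Multiset.count_add, z _ 2 p1 (by omega), Multiset.count_singleton, if_neg (by omega)] at o10
        omega
    · exfalso
      rw [c6, Multiset.count_add, z _ 1 p1 (by omega), Multiset.count_singleton, if_neg (by omega)] at o11
      omega
    · exact ⟨rfl, rfl, hB⟩
  · right
    refine ⟨rfl, hq1, ?_⟩
    have c9 : OddHC.cont (TT x).1 = raise (raise (OddHC.cont R)) + {q + 1} := by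
      rw [hcx]
      change OddHC.cont ((R △ .nil) △ ch (q + 1)) = _
      rw [cont_node, cont_node, cont_nil, add_zero, cc]
    rw [e] at c9
    rcases hin with rfl | rfl | ⟨hB, rfl | rfl | rfl⟩
    · exact Or.inl rfl
    · exact Or.inr (Or.inl rfl)
    · exfalso
      by_cases hq2 : q = 1
      · subst hq2
        have k1 := (hF.fm.node (Z := .nil) (by rw [hn]; omega)).node (Z := ch 2) (by
          rw [Tsq.ht_node, hc, hn]; omega)
        have e' : x.1 = ((R △ .nil) △ ch 2) := hx
        rw [← e'] at k1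
        refine not10w hd hR0 hp (by rw [hT]; omega) hF.fm (s := 2) (t := 2) ?_
        rw [← e, k1.wdT]
        simp [ch, wd_node, wd]
      · rw [c9, Multiset.count_add, z _ 2 p2 (by omega), Multiset.count_singleton, if_neg (by omega)] at o10
        omega
    · exfalso
      rw [c9, Multiset.count_add, z _ 1 p2 (by omega), Multiset.count_singleton, if_neg (by omega)] at o11
      omega
    · exact Or.inr (Or.inr ⟨rfl, hB⟩)

/-- the inner words 6, 9 have two maxima -/
theorem vly69w (hR : R ≠ .nil) (hq : q + 3 ≤ OddHC.ht R) {x : X k} {i : ℕ} (hi : i = 6 ∨ i = 9)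
    (hx : x.1 = W R (ch (q + 1)) B S i) : Vly (TT x).1 := by
  obtain ⟨a, b, hF⟩ := JV_FM_ex hR
  have hn : Tsq.ht (.nil : BinaryTree Unit) = 0 := rfl
  have hc : ∀ n, Tsq.ht (ch n) = n := fun n => by rw [H1.ht_eq, ch_ht]
  have hT : Tsq.ht R = OddHC.ht R := H1.ht_eq R
  have hp := JV.parts_of hF
  have hbot := hp.bot
  have m1 : ∀ l : List Bool, (l.map not).count true = l.count false := Tsq.count_not_true
  have m2 : ∀ l : List Bool, (l.map not).count false = l.count true := Tsq.count_not_false
  have ec : ∀ n, wd (ch n) = List.replicate n true ++ List.replicate n false := wd_ch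
  have cc : ∀ n, OddHC.cont (ch (n + 1)) = {n + 1} := fun n => by rw [ch_eq]; exact cont_pc n
  have hR1 : (OddHC.cont R).sup = OddHC.ht R := (OddHC.ht_eq R).symm
  have hcx : OddHC.cont (TT x).1 = OddHC.cont (W R (ch (q + 1)) B S i) := by rw [cont_TT, hx]
  rcases hi with rfl | rfl
  · have k1 := hF.node (Z := ch (q + 2)) (by rw [hc]; omega)
    have e' : x.1 = (R △ ch (q + 2)) := hx
    rw [← e'] at k1
    have hh : Tsq.ht (TT x).1 = Tsq.ht R + 1 := by
      rw [H1.ht_eq, OddHC.ht_eq, hcx, hT]
      change (OddHC.cont (R △ ch (q + 2))).sup = _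
      rw [cont_node, cc, Multiset.sup_add, Multiset.sup_singleton, sup_raise, hR1]
      exact max_eq_left (by omega)
    refine ⟨b.map not, false :: false :: a.map not, q + 2, by omega, ⟨?_, ?_, ?_⟩⟩
    · rw [k1.wdT, ec]
      simp
    · intro m
      rw [hh, ← List.map_take, m1, m2]
      have := hp.lo' m
      omega
    · rw [hh, m1, m2]
      omega
  · have k1 := (hF.node (Z := .nil) (by rw [hn]; omega)).node (Z := ch (q + 1)) (by
      rw [Tsq.ht_node, hc, hn]; omega)
    have e' : x.1 = ((R △ .nil) △ ch (q + 1)) := hx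
    rw [← e'] at k1
    have hh : Tsq.ht (TT x).1 = Tsq.ht R + 2 := by
      rw [H1.ht_eq, OddHC.ht_eq, hcx, hT]
      change (OddHC.cont ((R △ .nil) △ ch (q + 1))).sup = _
      rw [cont_node, cont_node, cont_nil, add_zero, cc, Multiset.sup_add, Multiset.sup_singleton, sup_raise,
        sup_raise, hR1]
      exact max_eq_left (by omega)
    refine ⟨b.map not ++ [true], false :: false :: false :: a.map not, q + 1, by omega, ⟨?_, ?_, ?_⟩⟩
    · rw [k1.wdT, ec]
      simp [wd]
    · intro m
      rw [hh, List.take_append, List.count_append, List.count_append, ← List.map_take, m1, m2]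
      have := hp.lo' m
      have h5 : ([true].take (m - (b.map not).length)).count true ≤ 1 :=
        le_trans List.count_le_length (by simp)
      omega
    · rw [hh, List.count_append, List.count_append, m1, m2]
      simp
      omega

/-- **sharp `R'`: no hit**, any window without parts 1, 2 -/
theorem winJ_sharp (hp : ∀ x ∈ OddHC.cont R, 3 ≤ x) (h4 : 4 ≤ OddHC.ht R) (hq : q + 3 ≤ OddHC.ht R) {x : X k} {i : ℕ}
    (hi : i ∈ [0, 1, 3, 6, 8, 9]) (hx : x.1 = W R (ch (q + 1)) B S i) (hd : SqD k R' B' S') (hs : Sharp R')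
    (hle : OddHC.ht R ≤ OddHC.ht R') {j : ℕ} (hj : j < 20) : (TT x).1 ≠ W R' .nil B' S' j := by
  intro e
  have hR0 : R ≠ .nil := by
    rintro rfl
    rw [OddHC.ht] at h4
    omega
  rcases winJ hp h4 hq hi hx hd hle hj e with ⟨rfl, rfl, _⟩ | ⟨rfl, _, hj⟩
  · have h1 := vly69w hR0 hq (Or.inl rfl) hx
    rw [e] at h1
    exact h1.not (hd.oneTop hs (Or.inr (Or.inr rfl)))
  · have h1 := vly69w hR0 hq (Or.inr rfl) hx
    rw [e] at h1
    refine h1.not (hd.oneTop hs ?_)
    rcases hj with hj | hj | ⟨hj, _⟩
    · exact Or.inl hj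
    · exact Or.inr (Or.inl hj)
    · exact Or.inr (Or.inr hj)

end J3

end Pool.OddHC
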