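import Pool.Agent.Work.MP_8f87b2_h50.J3Rows
import Pool.Agent.Work.MP_8f87b2_h10.JVA
import Pool.Agent.Work.MP_8f87b2_h68.JI

/-!
# MP_8f87b2_co, row I-J3V-A

The inner words of the arcs 3 and 6 are those of the pair gadgets (helper10, `ne_W4`, `n5`); the one of the arc 8 is
`b' 10010 a'` and has no factor `101`.
-/

set_option autoImplicit false

namespace Pool.OddHC

open BinaryTree Equiv Multiset Pool.Agent.Work.MP_8f87b2_co

namespace J3

open H1 SRun JVi

variable {k n : ℕ} {w : X k} {F F' : Set (Cyc k)} {g g' : DG k} {R B S : BinaryTree Unit} {a b : List Bool}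

theorem N101_8 (h : Dt R a b) (hS : SqD k R B S) (w0 : X k) : N101 (wd (TT (sX R B S w0 8)).1) := by
  rw [hS.innW w0 (by simp) h.fm]
  obtain ⟨β, hβ⟩ := h.last
  obtain ⟨l, hl⟩ := h.st
  have e : b.map not ++ (IF 8 ++ a.map not) = (b.map not ++ [true]) ++ false :: false :: (true :: false :: a.map not) := by
    simp [IF]
  rw [e]
  refine N101.app00 (N101.of_D2 ?_) ?_
  · exact h.be.snoc hβ
  · have h1 := h.al
    rw [hl] at h1 ⊢
    exact (h1.tail).cons_tff

/-- **I-J3V-A**: no word of a window of type A with a part 1. For the windows of height 4 only: `4 ≤ ht R` and `R = a 1 b`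
(first maximum) with `a ≠ 111`, `b` not `0011..`. -/
theorem _root_.Pool.OddHC.TyJ3V.inner_A (h : TyJ3V F g) (h' : TyA F' g') (hm : ∀ c ∈ F', 1 ≤ (contc c).count 1)
    (hc : (∀ c ∈ F', htc c = 4) → (∀ c ∈ F, 4 ≤ htc c) ∧ ∀ (R B S : BinaryTree Unit) (w0 : X k), SqD k R B S →
      F = {cyc (sX R B S w0 0), cyc (sX R B S w0 1), cyc (sX R B S w0 2)} → g = gadS (sX R B S w0) →
      ∀ a b, H1.FM R a b → a ≠ [true, true, true] ∧ ∀ v, b ≠ false :: false :: true :: true :: v) :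
    ∀ p ∈ g.arcs, ∀ w ∈ innA p, w ∉ g'.B := by
  intro p hp w hw hw'
  obtain ⟨R, B, S, w0, h1, _, hF, hg⟩ := h
  obtain ⟨a, b, hD⟩ := Dt.ex (Gd_of h1.ne h1.one).1 (by rw [H1.ht_eq]; exact h1.h3)
  obtain ⟨q, B1, H, s, B', w0', hn, rfl, rfl⟩ := h'
  obtain ⟨i, hi, e⟩ := mem_gad20.1 hw'
  have hbig := hn.big
  have hR1 : 1 ∈ OddHC.cont (H1.gR B1 H s B') := by
    have h1 := hm _ rfl
    change 1 ≤ (OddHC.cont (H1.gX q B1 H s B' w0' 0).1).count 1 at h1
    rw [hn.cont0, Multiset.count_add, Multiset.count_singleton, if_neg (by omega)] at h1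
    exact Multiset.count_pos.1 (by omega)
  have e1 : wd w.1 = wd (H1.W (H1.gR B1 H s B') (H1.ch (q + 1)) B'
      (Tsq.sq (H1.gR B1 H s B')).1 i) := by
    rw [← hn.word w0' hi, e]
  have e3 : (sX R B S w0 3).1 = (app R (.nil △ .nil) △ .nil) := h1.word w0 (by norm_num)
  have e6 : (sX R B S w0 6).1 = (R △ (.nil △ .nil)) := h1.word w0 (by norm_num)
  have hg' := hg
  subst hg'
  have hp' : p = (sX R B S w0 3, sX R B S w0 12) ∨ p = (sX R B S w0 6, sX R B S w0 15) ∨
      p = (sX R B S w0 8, sX R B S w0 14) := hp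
  rcases hp' with rfl | rfl | rfl
  · have hw2 : w = TT (sX R B S w0 3) := hw
    subst hw2
    refine ne_W4 hn hR1 hD e3 ?_ hi e1
    intro hs
    have h4 := hc ?_
    · refine ⟨?_, h4.2 R B S w0 h1 hF rfl a b hD.fm⟩
      rw [← htc_z h1 w0]
      exact h4.1 _ (by rw [hF]; exact Or.inl rfl)
    · rintro c rfl
      change (OddHC.cont (H1.gX q B1 H s B' w0' 0).1).sup = 4
      rw [hn.cont0, Multiset.sup_add, ← OddHC.ht_eq, hn.ht, Multiset.sup_singleton, hs]
      exact max_eq_left (by omega)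
  · have hw2 : w = TT (sX R B S w0 6) := hw
    subst hw2
    obtain ⟨p', s', e2⟩ := ne_W35 hn hR1 (H1.ch (q + 1)) hi
    rw [← e1] at e2
    have := hD.n5 e6 e2
    simp at this
  · have hw2 : w = TT (sX R B S w0 8) := hw
    subst hw2
    obtain ⟨p', s', e2⟩ := ne_W35 hn hR1 (H1.ch (q + 1)) hi
    rw [← e1] at e2
    exact N101_8 hD h1 w0 p' (true :: s') e2

end J3

end Pool.OddHC
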