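import Pool.Agent.Work.MP_8f87b2_h50.J3A
import Pool.Agent.Work.MP_8f87b2_h27.S5D

/-!
# MP_8f87b2_co: J3V in the pile phase

`PileR R`: `R = R0 (())^n`, `R0` without parts 1, 2, `ht R0 >= 4`. Then the inner words are `InnP 3`. `TyJ3P`: J3V in this
phase. Rows: E (`n >= 1`: none; `n = 0`: condition on `fh`), general hit list, K, K' (any `S`), A.
-/

set_option autoImplicit false

namespace Pool.OddHC

open BinaryTree Equiv Multiset Pool.Agent.Work.MP_8f87b2_co

namespace J3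

open H1 SRun JVi

variable {k n : ℕ} {w : X k} {F F' : Set (Cyc k)} {g g' : DG k} {R B S : BinaryTree Unit} {a b : List Bool}

/-- `R = R0 (())^n`, `R0` bare, `4 ≤ ht R0` -/
def PileR (R : BinaryTree Unit) : Prop :=
  ∃ (R0 : BinaryTree Unit) (n : ℕ), R = app R0 (lv2 n .nil) ∧ (∀ x ∈ OddHC.cont R0, 3 ≤ x) ∧ 4 ≤ OddHC.ht R0

theorem htT_lv2 (n : ℕ) : Tsq.ht (lv2 n .nil) ≤ 2 := by
  induction n with
  | zero => exact Nat.zero_le _
  | succ n ih =>
    change Tsq.ht ((.nil △ .nil) △ lv2 n .nil) ≤ 2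
    rw [Tsq.ht_node]
    have : Tsq.ht (.nil △ .nil : BinaryTree Unit) = 1 := rfl
    omega

theorem PileR.fmt (h : PileR R) : ∃ a b, FMT 3 R a b := by
  obtain ⟨R0, n, rfl, h1, h2⟩ := h
  obtain ⟨a, b, h3⟩ := hg_FMT (by omega) (hg_of_cont (by omega) h1) (by rw [H1.ht_eq]; omega)
  refine ⟨a, b ++ wd (lv2 n .nil), h3.fm.app_right ?_, h3.up, h3.dn.append _⟩
  have := htT_lv2 n
  rw [H1.ht_eq R0]
  omega

theorem PileR.ht (h : PileR R) : 4 ≤ OddHC.ht R := by
  obtain ⟨R0, n, rfl, h1, h2⟩ := h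
  rw [ht_app]
  omega

theorem SqD.innP (h : SqD k R B S) (hP : PileR R) (w0 : X k) {i : ℕ} (hi : i ∈ [3, 6, 8]) :
    InnP 3 (TT (sX R B S w0 i)).1 := by
  obtain ⟨a, b, h1⟩ := hP.fmt
  have e := h.innW w0 hi h1.fm
  refine ⟨le_rfl, ?_, ?_⟩
  · rw [e]
    rcases h1.dn with ⟨r, h2⟩ | ⟨r, h2⟩
    · left
      exact ⟨r.map not ++ (IF i ++ a.map not), by rw [h2]; simp⟩
    · right
      exact ⟨r.map not ++ (IF i ++ a.map not), by rw [h2]; simp⟩
  · rw [e]
    have hI : ∃ r, IF i = r ++ [false] := by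
      simp only [List.mem_cons, List.not_mem_nil, or_false] at hi
      rcases hi with rfl | rfl | rfl
      · exact ⟨[false, true, true, false], rfl⟩
      · exact ⟨[true, false, true, false], rfl⟩
      · exact ⟨[true, false, false, true], rfl⟩
    obtain ⟨r, hr⟩ := hI
    rw [hr]
    rcases h1.up with rfl | ⟨a', rfl⟩ | ⟨a', rfl⟩
    · left
      exact ⟨b.map not ++ r, by simp [List.replicate_succ]⟩
    · left
      exact ⟨b.map not ++ (r ++ false :: a'.map not), by simp⟩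
    · right
      exact ⟨b.map not ++ (r ++ false :: a'.map not), by simp⟩

/-- the content of the inner words -/
theorem SqD.innC (h : SqD k R B S) (w0 : X k) {i : ℕ} (hi : i ∈ [3, 6, 8]) (p : ℕ) (h2 : 2 ≤ p)
    (hp : p < OddHC.ht R) : (OddHC.cont (TT (sX R B S w0 i)).1).count p = (OddHC.cont R).count p := by
  have hi' : i < 20 := by
    simp only [List.mem_cons, List.not_mem_nil, or_false] at hi
    omega
  have hc : OddHC.cont (TT (sX R B S w0 i)).1 = OddHC.cont (W R .nil B S i) := by rw [cont_TT, h.word w0 hi']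
  rw [hc]
  have r0 : raise (OddHC.cont (BinaryTree.nil : BinaryTree Unit)) = {1} := raise_nil
  have hr : ∀ M : Multiset ℕ, p < M.sup → (raise M).count p = M.count p := by
    intro M hM
    unfold raise
    rw [Multiset.count_cons_of_ne (by omega), Multiset.count_erase_of_ne (by omega)]
  have h1 : ({1} : Multiset ℕ).count p = 0 := by
    rw [Multiset.count_singleton, if_neg (by omega)]
  have hR : (OddHC.cont R).sup = OddHC.ht R := (OddHC.ht_eq R).symm
  simp only [List.mem_cons, List.not_mem_nil, or_false] at hi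
  rcases hi with rfl | rfl | rfl
  · change (OddHC.cont (app R (.nil △ .nil) △ .nil)).count p = _
    rw [cont_node, cont_nil, add_zero, cont_app, cont_node, r0, cont_nil, add_zero, hr, Multiset.count_add, h1,
      add_zero]
    rw [sup_add', hR]
    exact lt_of_lt_of_le hp (le_max_left _ _)
  · change (OddHC.cont (R △ (.nil △ .nil))).count p = _
    rw [cont_node, cont_node, r0, cont_nil, add_zero, Multiset.count_add, h1, add_zero, hr _ (by omega)]
  · change (OddHC.cont (.nil △ (R △ .nil))).count p = _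
    rw [cont_node, cont_node, r0, cont_nil, add_zero, Multiset.count_add, h1, zero_add, hr _ (by omega)]

/-- **hit list, J3V (any phase) - E, all three words, any `X`** -/
theorem _root_.Pool.OddHC.TyJ3V.inner_hit (h : TyJ3V F g) {X : BinaryTree Unit} (h' : IsTri .nil X .nil F' g') :
    ∀ p ∈ g.arcs, ∀ w ∈ innA p, w ∈ g'.B → w.1 = X △ .nil ∧ cyc w ∉ F' ∧
      ∃ (R B S : BinaryTree Unit) (w0 : OddHC.X k) (i : ℕ) (a b : List Bool), SqD k R B S ∧ i ∈ [3, 6, 8] ∧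
        w = TT (sX R B S w0 i) ∧ H1.FM R a b ∧ true :: (wd X ++ [false]) = b.map not ++ (IF i ++ a.map not) ∧
        F = {cyc (sX R B S w0 0), cyc (sX R B S w0 1), cyc (sX R B S w0 2)} := by
  obtain ⟨R, B, S, w0, h1, _, hF, h2⟩ := h.inn
  obtain ⟨a, b, h3⟩ := h1.fmt
  intro p hp w hw hw'
  obtain ⟨i, hi, e⟩ := h2 p hp
  rw [e] at hw
  obtain rfl : w = _ := hw
  have hJ := h1.inJ w0 hi
  have e1 := h1.innW w0 hi h3.fm
  rcases h'.words _ hw' with e2 | ⟨_, e2 | e2⟩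
  · have e3 : (TT (sX R B S w0 i)).1 = X △ .nil := e2
    refine ⟨e3, ?_, R, B, S, w0, i, a, b, h1, hi, rfl, h3.fm, ?_, hF⟩
    · intro hF'
      obtain ⟨a', b', c', ha, hb', hc', k1, k2, k3, rfl, rfl⟩ := h'
      have e4 : (TT (sX R B S w0 i)) = a' := Subtype.ext (e2.trans ha.symm)
      rw [e4] at hF'
      rcases hF' with e5 | e5
      · rw [e5] at k3; exact lt_irrefl _ k3
      · rw [k2, ← e5] at k3; exact lt_irrefl _ k3
    · rw [← e1, e3, wd_node]
      simp [wd]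
  · exact absurd e2 (end2_last hJ.en)
  · exact absurd e2 (sta2_first hJ.sta)

/-- TYPE J3V in the pile phase -/
def _root_.Pool.OddHC.TyJ3P (F : Set (Cyc k)) (g : DG k) : Prop :=
  ∃ (R B S : BinaryTree Unit) (w0 : X k), SqD k R B S ∧ J3OK R B S w0 ∧ PileR R ∧
    F = {cyc (sX R B S w0 0), cyc (sX R B S w0 1), cyc (sX R B S w0 2)} ∧ g = gadS (sX R B S w0)

theorem _root_.Pool.OddHC.TyJ3P.to (h : TyJ3P F g) : TyJ3V F g := by
  obtain ⟨R, B, S, w0, h1, h2, _, h3, h4⟩ := h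
  exact ⟨R, B, S, w0, h1, h2, h3, h4⟩

theorem _root_.Pool.OddHC.TyJ3P.inn (h : TyJ3P F g) : ∃ (R B S : BinaryTree Unit) (w0 : X k), SqD k R B S ∧ PileR R ∧
    F = {cyc (sX R B S w0 0), cyc (sX R B S w0 1), cyc (sX R B S w0 2)} ∧
    ∀ p ∈ g.arcs, ∃ i ∈ [3, 6, 8], innA p = {TT (sX R B S w0 i)} := by
  obtain ⟨R, B, S, w0, h1, hp, hP, rfl, rfl⟩ := h
  refine ⟨R, B, S, w0, h1, hP, rfl, ?_⟩
  intro p hp
  have hp' : p = (sX R B S w0 3, sX R B S w0 12) ∨ p = (sX R B S w0 6, sX R B S w0 15) ∨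
      p = (sX R B S w0 8, sX R B S w0 14) := hp
  rcases hp' with rfl | rfl | rfl
  · exact ⟨3, by simp, rfl⟩
  · exact ⟨6, by simp, rfl⟩
  · exact ⟨8, by simp, rfl⟩

theorem _root_.Pool.OddHC.TyJ3P.innP (h : TyJ3P F g) : ∀ p ∈ g.arcs, ∀ w ∈ innA p, InnP 3 w.1 := by
  obtain ⟨R, B, S, w0, h1, hP, _, h2⟩ := h.inn
  intro p hp w hw
  obtain ⟨i, hi, e⟩ := h2 p hp
  rw [e] at hw
  obtain rfl : w = _ := hw
  exact h1.innP hP w0 hi

/-- the height of the group is at least 4 -/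
theorem _root_.Pool.OddHC.TyJ3P.ht4 (h : TyJ3P F g) : ∀ c ∈ F, 4 ≤ htc c := by
  have hh := h.to.htg
  obtain ⟨R, B, S, w0, h1, hP, rfl, h2⟩ := h.inn
  intro c hc
  rw [hh c hc (cyc (sX R B S w0 0)) (Or.inl rfl), htc_z h1 w0]
  exact hP.ht

/-- **I-J3P-K**, any `S` -/
theorem _root_.Pool.OddHC.TyJ3P.inner_K {S : BinaryTree Unit} (h : TyJ3P F g) (h' : TyK S F' g') :
    ∀ p ∈ g.arcs, ∀ w ∈ innA p, w ∉ g'.B := fun p hp w hw => (h.innP p hp w hw).not_K h'

/-- **I-J3P-K'**, any `S` -/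
theorem _root_.Pool.OddHC.TyJ3P.inner_K' {S : BinaryTree Unit} (h : TyJ3P F g) (h' : TyK' S F' g') :
    ∀ p ∈ g.arcs, ∀ w ∈ innA p, w ∉ g'.B := fun p hp w hw => (h.innP p hp w hw).not_K' h'

/-- **I-J3P-T** -/
theorem _root_.Pool.OddHC.TyJ3P.inner_T (h : TyJ3P F g) (h' : TyT F' g')
    (hle : ∀ c ∈ F, ∀ d ∈ F', htc c ≤ htc d) : ∀ p ∈ g.arcs, ∀ w ∈ innA p, w ∉ g'.B :=
  h.to.inner_T h.ht4 h' hle

/-- **I-J3P-E**: a square in `R` (the group contains a T-cycle with a part 2 and two parts 1), or a part 3 in `R` and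
`fh X ≠ 2` for the hit `(X)` -/
theorem _root_.Pool.OddHC.TyJ3P.inner_E (h : TyJ3P F g) (h' : TyE F' g')
    (hc : (∃ c ∈ F, 1 ≤ (contc c).count 2 ∧ (contc c).count 1 = 2) ∨
      ((∃ c ∈ F, 1 ≤ (contc c).count 3) ∧ ∀ p ∈ g.arcs, ∀ w ∈ innA p, ∀ Y, w.1 = Y △ .nil → fh Y ≠ 2)) :
    ∀ p ∈ g.arcs, ∀ w ∈ innA p, w ∉ g'.B := by
  have hp' := h.innP
  obtain ⟨R, B, S, w0, h1, hP, rfl, h2⟩ := h.inn
  have hht := hP.ht
  have hsz := h1.size
  have hcc : ∀ c ∈ ({cyc (sX R B S w0 0), cyc (sX R B S w0 1), cyc (sX R B S w0 2)} : Set (Cyc k)),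
      contc c = OddHC.cont R + {2} ∨ contc c = OddHC.cont R + ({1} + {1}) := by
    rintro c (rfl | rfl | rfl)
    · exact Or.inl (h1.cont0 w0)
    · exact Or.inr (h1.cont1 w0)
    · exact Or.inr (h1.cont2 w0)
  intro p hp w hw
  have hI := hp' p hp w hw
  obtain ⟨i, hi, e⟩ := h2 p hp
  have hw0 := hw
  rw [e] at hw
  obtain rfl : w = _ := hw
  have hJ := h1.inJ w0 hi
  have hk : 3 < k := by
    have := h1.two
    omega
  refine hI.not_E hk (by rw [hJ.ht]; omega) h' ?_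
  rcases hc with ⟨c, hc, hc2, hc1⟩ | ⟨⟨c, hc, hc3⟩, hfh⟩
  · right; left
    rw [h1.innC w0 hi 2 le_rfl (by omega)]
    rcases hcc c hc with e1 | e1
    · rw [e1, Multiset.count_add, h1.one] at hc1
      simp at hc1
    · rw [e1, Multiset.count_add] at hc2
      have : (({1} : Multiset ℕ) + {1}).count 2 = 0 := by decide
      omega
  · right; right; right
    refine ⟨?_, hfh p hp _ hw0⟩
    rw [h1.innC w0 hi 3 (by omega) (by omega)]
    rcases hcc c hc with e1 | e1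
    · rw [e1, Multiset.count_add] at hc3
      have : ({2} : Multiset ℕ).count 3 = 0 := by decide
      omega
    · rw [e1, Multiset.count_add] at hc3
      have : (({1} : Multiset ℕ) + {1}).count 3 = 0 := by decide
      omega

/-- **I-J3P-A**: for the windows of height 4 only: `R` does not start with `[4]` (`a ≠ 111`) or is higher than 4 -/
theorem _root_.Pool.OddHC.TyJ3P.inner_A (h : TyJ3P F g) (h' : TyA F' g') (hm : ∀ c ∈ F', 1 ≤ (contc c).count 1)
    (hc : (∀ c ∈ F', htc c = 4) → ∀ (R B S : BinaryTree Unit) (w0 : X k), SqD k R B S →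
      F = {cyc (sX R B S w0 0), cyc (sX R B S w0 1), cyc (sX R B S w0 2)} → g = gadS (sX R B S w0) →
      ∀ v, wd R ≠ true :: true :: true :: true :: false :: v) :
    ∀ p ∈ g.arcs, ∀ w ∈ innA p, w ∉ g'.B := by
  have h4 := h.ht4
  have hto := h.to
  obtain ⟨R, B, S, w0, h1, hOK, hP, hF, hg⟩ := h
  obtain ⟨a, b, hD⟩ := Dt.ex (Gd_of h1.ne h1.one).1 (by rw [H1.ht_eq]; exact h1.h3)
  obtain ⟨a3, b3, h3⟩ := hP.fmt
  obtain ⟨rfl, rfl⟩ := hD.fm.uniq h3.fm
  intro p hp w hw hw'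
  obtain ⟨q, B1, H, s, B', w0', hn, rfl, rfl⟩ := h'
  obtain ⟨i, hi, e⟩ := mem_gad20.1 hw'
  have hbig := hn.big
  have hR1 : 1 ∈ OddHC.cont (H1.gR B1 H s B') := by
    have h1 := hm _ rfl
    change 1 ≤ (OddHC.cont (H1.gX q B1 H s B' w0' 0).1).count 1 at h1
    rw [hn.cont0, Multiset.count_add, Multiset.count_singleton, if_neg (by omega)] at h1
    exact Multiset.count_pos.1 (by omega)
  have e1 : wd w.1 = wd (H1.W (H1.gR B1 H s B') (H1.ch (q + 1)) B'
      (Tsq.sq (H1.gR B1 H s B')).1 i) := by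
    rw [← hn.word w0' hi, e]
  have e3 : (sX R B S w0 3).1 = (app R (.nil △ .nil) △ .nil) := h1.word w0 (by norm_num)
  have e6 : (sX R B S w0 6).1 = (R △ (.nil △ .nil)) := h1.word w0 (by norm_num)
  have hg' := hg
  subst hg'
  have hp' : p = (sX R B S w0 3, sX R B S w0 12) ∨ p = (sX R B S w0 6, sX R B S w0 15) ∨
      p = (sX R B S w0 8, sX R B S w0 14) := hp
  rcases hp' with rfl | rfl | rfl
  · have hw2 : w = TT (sX R B S w0 3) := hw
    subst hw2
    refine ne_W4 hn hR1 hD e3 ?_ hi e1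
    intro hs
    have hc4 := hc ?_ R B S w0 h1 hF rfl
    · refine ⟨hP.ht, ?_, ?_⟩
      · rintro rfl
        have h5 := hD.fm.eq
        rcases h3.dn with ⟨r, h6⟩ | ⟨r, h6⟩
        · exact hc4 (false :: false :: false :: r) (by rw [h5, h6]; rfl)
        · exact hc4 (false :: false :: true :: true :: true :: r) (by rw [h5, h6]; rfl)
      · intro v hv
        rcases h3.dn with ⟨r, h6⟩ | ⟨r, h6⟩ <;> rw [h6] at hv <;> simp [List.replicate_succ] at hv
    · rintro c rfl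
      change (OddHC.cont (H1.gX q B1 H s B' w0' 0).1).sup = 4
      rw [hn.cont0, Multiset.sup_add, ← OddHC.ht_eq, hn.ht, Multiset.sup_singleton, hs]
      exact max_eq_left (by omega)
  · have hw2 : w = TT (sX R B S w0 6) := hw
    subst hw2
    obtain ⟨p', s', e2⟩ := ne_W35 hn hR1 (H1.ch (q + 1)) hi
    rw [← e1] at e2
    have := hD.n5 e6 e2
    simp at this
  · have hw2 : w = TT (sX R B S w0 8) := hw
    subst hw2
    obtain ⟨p', s', e2⟩ := ne_W35 hn hR1 (H1.ch (q + 1)) hi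
    rw [← e1] at e2
    exact N101_8 hD h1 w0 p' (true :: s') e2

end J3

end Pool.OddHC
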