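import Pool.Agent.Work.MP_8f87b2_h6.TyJ3V
import Pool.Agent.Work.MP_8f87b2_h58.InA0

/-!
# MP_8f87b2_co: the inner words of J3V

`R = a 1 b` at the first maximum, `b' = not b`, `a' = not a`: the inner words are `b' 01100 a'` (arc 3 > 12), `b' 10100 a'`
(6 > 15), `b' 10010 a'` (8 > 14). They start with `111` or `1100`, end with `000` or `1100` and have one bead, at height
`ht R - 1` at least (`hbn`), in one of the two orientations.
-/

set_option autoImplicit false

namespace Pool.OddHC

open BinaryTree Equiv Multiset Pool.Agent.Work.MP_8f87b2_co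

namespace J3

open H1

variable {k : ℕ} {R B S : BinaryTree Unit}

/-- a factor `1 0 1` at height `n` -/
def hbn (n : ℕ) (t : BinaryTree Unit) : Prop :=
  ∃ u v, wd t = u ++ true :: false :: true :: v ∧ u.count false + n ≤ u.count true

theorem hbn_mono {n m : ℕ} {t : BinaryTree Unit} (h : hbn n t) (hm : m ≤ n) : hbn m t := by
  obtain ⟨u, v, h1, h2⟩ := h
  exact ⟨u, v, h1, by omega⟩

theorem vb_not_hbn {n m : ℕ} {t : BinaryTree Unit} (h : vb n t) (hm : n < m) : ¬ hbn m t := by
  rintro ⟨u, v, h1, h2⟩
  have := h u v h1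
  omega

/-- mirror image of a factor `0 1 0` -/
theorem hbn_mir {n : ℕ} {t : BinaryTree Unit} {u v : List Bool} (h : wd t = u ++ false :: true :: false :: v)
    (h3 : u.count false + (n + 1) ≤ u.count true) : hbn n (Tsq.mir t) := by
  have c := wd_counts t
  rw [h, List.count_append, List.count_append] at c
  have h4 : (v.map not).count true = v.count false := Tsq.count_not_true v
  have h5 : (v.map not).count false = v.count true := Tsq.count_not_false v
  refine ⟨(v.map not).reverse, (u.map not).reverse, ?_, ?_⟩
  · rw [Tsq.wd_mir, h]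
    simp
  · rw [List.count_reverse, List.count_reverse, h4, h5]
    simp at c
    omega

/-- the middle of the inner words -/
def IF (i : ℕ) : List Bool :=
  if i = 3 then [false, true, true, false, false] else
  if i = 6 then [true, false, true, false, false] else [true, false, false, true, false]

theorem SqD.fmt (h : SqD k R B S) : ∃ a b, FMT 2 R a b :=
  hg_FMT (by omega) (hg_of_cont (by omega) (by
    intro x hx
    have h1 := cont_pos R x hx
    have h2 : x ≠ 1 := by
      rintro rfl
      exact absurd h.one (Multiset.count_ne_zero.2 hx)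
    omega)) (by
    have := h.h3
    rw [H1.ht_eq]
    omega)

/-- **the inner words** -/
theorem SqD.innW (h : SqD k R B S) (w0 : X k) {i : ℕ} (hi : i ∈ [3, 6, 8]) {a b : List Bool} (h1 : FM R a b) :
    wd (TT (sX R B S w0 i)).1 = b.map not ++ (IF i ++ a.map not) := by
  have h3 := h.h3
  have hn : Tsq.ht (.nil : BinaryTree Unit) = 0 := rfl
  have hR : Tsq.ht R = OddHC.ht R := H1.ht_eq R
  simp only [List.mem_cons, List.not_mem_nil, or_false] at hi
  rcases hi with rfl | rfl | rfl
  · have k1 := (h1.app_right (Z := .nil △ .nil) (by rw [Tsq.ht_node, hn]; omega)).node (Z := .nil)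
      (by rw [hn]; omega)
    have e : (sX R B S w0 3).1 = (app R (.nil △ .nil) △ .nil) := h.word w0 (by norm_num)
    rw [← e] at k1
    rw [k1.wdT]
    simp [IF, wd]
  · have k1 := h1.node (Z := .nil △ .nil) (by rw [Tsq.ht_node, hn]; omega)
    have e : (sX R B S w0 6).1 = (R △ (.nil △ .nil)) := h.word w0 (by norm_num)
    rw [← e] at k1
    rw [k1.wdT]
    simp [IF, wd]
  · have k1 := (h1.node (Z := .nil) (by rw [hn]; omega)).app_left (P := .nil △ .nil) (by
      rw [Tsq.ht_node, Tsq.ht_node, hn]; omega)
    have e : (sX R B S w0 8).1 = app (.nil △ .nil) (R △ .nil) := h.word w0 (by norm_num)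
    rw [← e] at k1
    rw [k1.wdT]
    simp [IF, wd]

/-- start, end, bead -/
structure InJ (n : ℕ) (t : BinaryTree Unit) : Prop where
  n3 : 3 ≤ n
  ht : OddHC.ht t = n + 1
  one : (OddHC.cont t).count 1 = 1
  sta : Sta 2 (wd t)
  en : End 2 (wd t)
  bead : hbn (n - 1) t ∨ hbn (n - 1) (Tsq.mir t)

theorem SqD.inJ (h : SqD k R B S) (w0 : X k) {i : ℕ} (hi : i ∈ [3, 6, 8]) :
    InJ (OddHC.ht R) (TT (sX R B S w0 i)).1 := by
  obtain ⟨a, b, h1⟩ := h.fmt
  have h3 := h.h3
  have hR : Tsq.ht R = OddHC.ht R := H1.ht_eq R
  have e := h.innW w0 hi h1.fm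
  have hi' : i < 20 := by
    simp only [List.mem_cons, List.not_mem_nil, or_false] at hi
    omega
  have hw := h.word w0 hi'
  have hc : OddHC.cont (TT (sX R B S w0 i)).1 = OddHC.cont (W R .nil B S i) := by rw [cont_TT, hw]
  have hb1 := h1.fm.bal
  have ha1 := h1.fm.top
  have m1 : (b.map not).count true = b.count false := Tsq.count_not_true b
  have m2 : (b.map not).count false = b.count true := Tsq.count_not_false b
  have h00 : OddHC.ht (BinaryTree.nil : BinaryTree Unit) = 0 := rfl
  have r0 : raise (OddHC.cont (BinaryTree.nil : BinaryTree Unit)) = {1} := raise_nil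
  have hr : ∀ t : BinaryTree Unit, 2 ≤ OddHC.ht t → (raise (OddHC.cont t)).count 1 = (OddHC.cont t).count 1 := by
    intro t ht
    exact raise_one (by rw [← OddHC.ht_eq]; exact ht)
  refine ⟨h3, ?_, ?_, ?_, ?_, ?_⟩
  · rw [OddHC.ht_eq, hc, ← OddHC.ht_eq]
    simp only [List.mem_cons, List.not_mem_nil, or_false] at hi
    rcases hi with rfl | rfl | rfl <;> simp only [W, app, ht_app, ht_node, h00] <;> omega
  · rw [hc]
    have h1 := h.one
    simp only [List.mem_cons, List.not_mem_nil, or_false] at hi
    rcases hi with rfl | rfl | rfl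
    · change (OddHC.cont (app R (.nil △ .nil) △ .nil)).count 1 = 1
      rw [cont_node, cont_nil, add_zero, hr _ (by rw [ht_app]; omega), cont_app, Multiset.count_add, h1,
        cont_node, r0, cont_nil]
      rfl
    · change (OddHC.cont (R △ (.nil △ .nil))).count 1 = 1
      rw [cont_node, Multiset.count_add, hr _ (by omega), h1, cont_node, r0, cont_nil]
      rfl
    · change (OddHC.cont (.nil △ (R △ .nil))).count 1 = 1
      rw [cont_node, cont_node, cont_nil, add_zero, Multiset.count_add, raise_zero, hr R (by omega), h1]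
      rfl
  · rw [e]
    rcases h1.dn with ⟨r, h2⟩ | ⟨r, h2⟩
    · left
      exact ⟨r.map not ++ (IF i ++ a.map not), by rw [h2]; simp⟩
    · right
      exact ⟨r.map not ++ (IF i ++ a.map not), by rw [h2]; simp⟩
  · rw [e]
    have hI : ∃ r, IF i = r ++ [false] := by
      simp only [List.mem_cons, List.not_mem_nil, or_false] at hi
      rcases hi with rfl | rfl | rfl
      · exact ⟨[false, true, true, false], rfl⟩
      · exact ⟨[true, false, true, false], rfl⟩
      · exact ⟨[true, false, false, true], rfl⟩
    obtain ⟨r, hr⟩ := hI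
    rw [hr]
    rcases h1.up with rfl | ⟨a', rfl⟩ | ⟨a', rfl⟩
    · left
      exact ⟨b.map not ++ r, by simp [List.replicate_succ]⟩
    · left
      exact ⟨b.map not ++ (r ++ false :: a'.map not), by simp⟩
    · right
      exact ⟨b.map not ++ (r ++ false :: a'.map not), by simp⟩
  · obtain ⟨c, hc⟩ : ∃ c, b = false :: c := by
      rcases h1.dn with ⟨r, h2⟩ | ⟨r, h2⟩
      · exact ⟨_, by rw [h2, List.replicate_succ]; rfl⟩
      · exact ⟨_, by rw [h2]; rfl⟩
    obtain ⟨d, hd⟩ : ∃ d, b = d ++ [false] := by
      obtain ⟨r, hr⟩ := H1.wd_last h.ne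
      rw [h1.fm.eq] at hr
      rcases List.eq_nil_or_concat b with rfl | ⟨d, x, rfl⟩
      · cases hc
      · refine ⟨d, ?_⟩
        have h5 : (a ++ true :: d) ++ [x] = r ++ [false] := by
          rw [← hr]; simp
        have h6 := List.append_inj_right' h5 rfl
        rw [List.cons.injEq] at h6
        rw [h6.1]
        simp
    simp only [List.mem_cons, List.not_mem_nil, or_false] at hi
    rcases hi with rfl | rfl | rfl
    · left
      refine ⟨d.map not, true :: false :: false :: a.map not, ?_, ?_⟩
      · rw [e, hd]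
        simp [IF]
      · rw [hd] at m1 m2 hb1
        simp at m1 m2 hb1 ⊢
        have m3 : (d.map not).count true = d.count false := Tsq.count_not_true d
        have m4 : (d.map not).count false = d.count true := Tsq.count_not_false d
        omega
    · left
      refine ⟨b.map not, false :: false :: a.map not, ?_, ?_⟩
      · rw [e]
        simp [IF]
      · rw [m1, m2]
        omega
    · right
      refine hbn_mir (u := b.map not ++ [true, false]) (v := a.map not) ?_ ?_
      · rw [e]
        simp [IF]
      · simp [m1, m2]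
        omega

end J3

end Pool.OddHC
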