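import Pool.Agent.Work.MP_8f87b2_h42.TopJ

/-!
# J3V: the phase START

`StJ0 v`: `v = [b] W`, `b` the smallest part, `W` nonempty. `exists_start`: every class has such a phase, `StJ0.rj`: it has
rule J. `StJ R`: the form of `R = inf u`, `u = C(v, a δ₁)`. `TyJ3S`: J3V with rule J and `StJ`.
-/

set_option autoImplicit false

namespace Pool.OddHC

open Finset BinaryTree Multiset Pool.OddHop

namespace J3Ex

variable {j j2 k : ℕ}

/-- START: `v = [b] W`, `b` the smallest part -/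
def StJ0 (v : BinaryTree Unit) : Prop :=
  ∃ (b : ℕ) (W : BinaryTree Unit), v = app (pc (b + 1)) W ∧ W ≠ .nil ∧ ∀ x ∈ cont W, b + 1 ≤ x

/-- the form of `R` -/
def StJ (R : BinaryTree Unit) : Prop :=
  ∃ (a c : ℕ) (Y : BinaryTree Unit), 2 ≤ c ∧ R = lv2 a (pc c) △ Y ∧ Y ≠ .nil ∧ ∀ x ∈ cont Y, c + 1 ≤ x

/-- **a smallest part stands in front at some time** -/
theorem exists_front' : ∀ (b j : ℕ) (v : X j) (M : Multiset ℕ), cont v.1 = {b + 1} + M →
    (∀ x ∈ M, b + 1 ≤ x) → ∃ (t : ℕ) (W : BinaryTree Unit), ((TT ^ t) v).1 = app (pc (b + 1)) W ∧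
      cont W = M := by
  intro b
  induction b with
  | zero =>
    intro j v M hM hb
    obtain ⟨m, r, e, hred⟩ := exists_red v.1
    have hs : 0 < ∑ x, e x := by
      have h1 := count_one_ins r.1 (lf e) (by rw [lf_length, X_num])
      rw [hred, hM, Multiset.count_add, lf_sum] at h1
      rw [← h1]
      simp
    obtain ⟨x, hx⟩ : ∃ x, e x ≠ 0 := by
      by_contra h
      push Not at h
      rw [Finset.sum_eq_zero (fun x _ => h x)] at hs
      omega
    have key : ∃ t, sp r t = x := by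
      by_cases hj : 1 ≤ m
      · exact exists_sp hj r x
      · refine ⟨0, ?_⟩
        have h0 : m = 0 := by omega
        subst h0
        exact Subsingleton.elim (α := ZMod 1) _ _
    obtain ⟨t, ht⟩ := key
    have h4 := word_pow (w := v) (u := r) (b := e) hred.symm t
    have h5 : ((TT ^ t) v).1 = .nil △ ins ((TT ^ t) r).1
        (lf (fun z : ZMod (2 * m + 1) => e (z + x) - if z = 0 then 1 else 0)) := by
      rw [h4, ← ins_front]
      congr 2
      funext z
      rw [ht]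
      by_cases hz : z = 0
      · subst hz
        rw [if_pos rfl, zero_add]
        omega
      · rw [if_neg hz]
        omega
    refine ⟨t, _, h5, ?_⟩
    have h6 := cont_pow v t
    rw [h5, hM, cont_node, cont_nil, raise_zero] at h6
    exact add_left_cancel h6
  | succ b ih =>
    intro j v M hM hb
    obtain ⟨m, r, e, hred⟩ := exists_red v.1
    have hs : ∑ x, e x = 0 := by
      have h1 := count_one_ins r.1 (lf e) (by rw [lf_length, X_num])
      rw [hred, hM, Multiset.count_add] at h1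
      have h2 : M.count 1 = 0 := by
        rw [Multiset.count_eq_zero]
        intro h3
        have := hb 1 h3
        omega
      have h3 : Multiset.count 1 ({b + 1 + 1} : Multiset ℕ) = 0 := by
        rw [Multiset.count_eq_zero, Multiset.mem_singleton]
        omega
      rw [h2, h3, lf_sum] at h1
      simpa using h1.symm
    have e0 : e = fun _ => 0 := by
      funext z
      rw [Finset.sum_eq_zero_iff] at hs
      exact hs z (mem_univ z)
    rw [e0] at hred
    have hv : v.1 = inf r.1 := by rw [inf_word, hred]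
    have hc : cont v.1 = (cont r.1).map (· + 1) := by rw [hv, cont_inf]
    -- the contents of `r`
    have hcr : cont r.1 = {b + 1} + M.map (· - 1) := by
      have h1 : cont r.1 = ((cont r.1).map (· + 1)).map (· - 1) := by
        rw [Multiset.map_map]
        simp
      rw [h1, ← hc, hM, Multiset.map_add, Multiset.map_singleton]
      rfl
    obtain ⟨t, W, h1, h2⟩ := ih _ r (M.map (· - 1)) hcr (by
      intro x hx
      obtain ⟨y, hy, rfl⟩ := Multiset.mem_map.1 hx
      have := hb y hy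
      omega)
    refine ⟨t, inf W, ?_, ?_⟩
    · have h3 := word_pow (w := v) (u := r) (b := fun _ => 0) (by rw [hv, inf_word]) t
      rw [h3, ← inf_word, h1, inf_app, inf_pc (by omega)]
    · rw [cont_inf, h2, Multiset.map_map]
      conv_rhs => rw [← Multiset.map_id M]
      apply Multiset.map_congr rfl
      intro x hx
      have := hb x hx
      change x - 1 + 1 = x
      omega

/-- **a phase START** -/
theorem exists_start (v0 : X j) (h2 : 2 ≤ Multiset.card (cont v0.1)) :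
    ∃ v : X j, cyc v = cyc v0 ∧ StJ0 v.1 := by
  classical
  have h0 : cont v0.1 ≠ 0 := by
    intro h
    rw [h] at h2
    simp at h2
  obtain ⟨b, hb, hmin⟩ : ∃ b ∈ cont v0.1, ∀ x ∈ cont v0.1, b ≤ x := by
    obtain ⟨x0, hx0⟩ := Multiset.exists_mem_of_ne_zero h0
    have hne : (cont v0.1).toFinset.Nonempty := ⟨x0, Multiset.mem_toFinset.2 hx0⟩
    obtain ⟨b, h3, h4⟩ := (cont v0.1).toFinset.exists_min_image id hne
    exact ⟨b, Multiset.mem_toFinset.1 h3, fun x hx => h4 x (Multiset.mem_toFinset.2 hx)⟩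
  obtain ⟨b', rfl⟩ : ∃ b', b = b' + 1 := ⟨b - 1, by have := cont_pos v0.1 b hb; omega⟩
  obtain ⟨M, hM⟩ := Multiset.exists_cons_of_mem hb
  have hM' : cont v0.1 = {b' + 1} + M := by rw [hM, Multiset.singleton_add]
  have hMb : ∀ x ∈ M, b' + 1 ≤ x := fun x hx => hmin x (by rw [hM]; exact Multiset.mem_cons_of_mem hx)
  obtain ⟨t, W, hW, hWM⟩ := exists_front' b' j v0 M hM' hMb
  refine ⟨(TT ^ t) v0, cyc_pow' v0 t, b', W, hW, ?_, ?_⟩
  · rintro rfl
    rw [cont_nil] at hWM
    rw [hM, ← hWM] at h2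
    simp at h2
  · rw [hWM]
    exact hMb

/-- START has rule J -/
theorem StJ0.rj {v : BinaryTree Unit} (h : StJ0 v) : RJ0 v := by
  obtain ⟨b, W, rfl, hW, hp⟩ := h
  by_cases hB : (Tsq.sq (app (pc (b + 1)) W)).2 = .nil
  · exact Or.inl hB
  right
  have hWm := ht_mem hW
  have hWh := hp _ hWm
  rcases Nat.lt_or_ge (b + 1) (ht W) with h1 | h1
  · have e : (Tsq.sq (app (pc (b + 1)) W)).2 = (Tsq.sq W).2 := by
      change (Tsq.sq (pc b △ W)).2 = _
      obtain ⟨X, Y, e, _⟩ := Sq2.first W hW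
      rw [Tsq.sq_lt (by rw [Sq2.htT, Sq2.htT, ht_pc]; exact h1) e]
    rw [e] at hB ⊢
    have h3 : ht (Tsq.sq W).2 ∈ cont W := by
      rw [← sq_cont hW]
      exact Multiset.mem_add.2 (Or.inl (ht_mem hB))
    refine ⟨b + 1, ?_, hp _ h3⟩
    rw [cont_app, cont_pc]
    by_cases h5 : b + 1 = ht (Tsq.sq W).2
    · rw [← h5] at h3 ⊢
      rw [Multiset.singleton_add, Multiset.erase_cons_head]
      exact h3
    · rw [Multiset.singleton_add, Multiset.erase_cons_tail _ h5]
      exact Multiset.mem_cons_self _ _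
  · have e : (Tsq.sq (app (pc (b + 1)) W)).2 = W := by
      change (Tsq.sq (pc b △ W)).2 = _
      rcases b with _ | b
      · exact congrArg Prod.snd (Tsq.sq_nil (C := W) (by rw [Sq2.htT]; omega))
      · rw [Tsq.sq_ge (by simp [pc]) (by rw [Sq2.htT, Sq2.htT, ht_pc]; exact h1)]
    rw [e]
    have h2 : ht W = b + 1 := by omega
    rw [h2] at hWm ⊢
    refine ⟨b + 1, ?_, le_rfl⟩
    rw [cont_app, cont_pc, Multiset.singleton_add, Multiset.erase_cons_head]
    exact hWm

variable {a : ℕ} {v : X j2} {u : X j}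

theorem Dat.stj (h : Dat k a v u) (hv : StJ0 v.1) : StJ (inf u.1) := by
  obtain ⟨b, W, e, hW, hp⟩ := hv
  have e1 : v.1 = pc b △ W := e
  have e2 : u.1 = lv a (pc (b + 1)) △ inf W := by
    rw [h.hu, u_word e1 a, inf1_pc]
  rw [e2, inf_node]
  refine ⟨a, b + 2, inf (inf W), by omega, ?_, inf_ne_nil (inf_ne_nil hW), ?_⟩
  · rw [inf1_eq (lv_ne_nil (by simp [pc])), inf_lv, inf_pc (by omega)]
  · intro x hx
    rw [cont_inf, cont_inf, Multiset.map_map] at hx
    obtain ⟨y, hy, rfl⟩ := Multiset.mem_map.1 hx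
    have := hp y hy
    change b + 2 + 1 ≤ y + 1 + 1
    omega

end J3Ex

open J3Ex

variable {j j2 k : ℕ} {F : Set (Cyc k)} {g : DG k}

/-- TYPE J3V with rule J and the phase START -/
def TyJ3S (F : Set (Cyc k)) (g : DG k) : Prop :=
  ∃ (R B S : BinaryTree Unit) (w0 : X k), J3.SqD k R B S ∧ J3.J3OK R B S w0 ∧ RJ R B ∧ StJ R ∧
    F = {cyc (J3.sX R B S w0 0), cyc (J3.sX R B S w0 1), cyc (J3.sX R B S w0 2)} ∧
    g = gadS (J3.sX R B S w0)

theorem TyJ3S.toJ3J (h : TyJ3S F g) : TyJ3J F g := by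
  obtain ⟨R, B, S, w0, h1, h2, h3, _, h4, h5⟩ := h
  exact ⟨R, B, S, w0, h1, h2, h3, h4, h5⟩

theorem TyJ3S.to (h : TyJ3S F g) : TyJ3V F g := h.toJ3J.toJ3V

variable {τ : Type} {P : τ → Set (Cyc k) → DG k → Prop} {V : Cyc j2}

/-- **THE TOP GROUP J3V**, phase START -/
theorem topS {a : ℕ} (hk : j2 + 2 * pkc V + 2 * a + 2 = k) (ho : oddF j2 (a + 1))
    (h2 : 2 ≤ pkc V) (hg : a = 0 → ∀ v : X j2, cyc v = V → (1 : ZMod (2 * j2 + 1)) ∉ rotGrp v)
    (jv : ∀ (j : ℕ) (U U' : Cyc j), j = j2 + pkc V + (a + 1) → Rd U = ⟨j2, V⟩ → Rd U' = ⟨j2, V⟩ →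
      U ≠ U' → HopC U U' → ∃ p q : Cyc k, Rd p = ⟨j, U⟩ ∧ Rd q = ⟨j, U'⟩ ∧ Typd P P {p, q})
    (hty : ∀ F g, TyJ3S F g → Typd P P F) : TopJ P V a := by
  obtain ⟨v0, hv0⟩ : ∃ v0 : X j2, cyc v0 = V := Quotient.exists_rep V
  obtain ⟨v, hv1, hSt⟩ := exists_start v0 (by rw [cont_card, ← pkc_cyc, hv0]; exact h2)
  have hv : cyc v = V := hv1.trans hv0
  have hp : pkn v.1 = pkc V := by rw [← pkc_cyc, hv]
  have hn := ins_num v.1 (lf (fun z : ZMod (2 * j2 + 1) => if z = 1 then a else 0))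
    (by rw [lf_length, X_num])
  have hs : (lf (fun z : ZMod (2 * j2 + 1) => if z = 1 then a else 0)).sum = a := by
    rw [lf_sum, Finset.sum_ite_eq' univ (1 : ZMod (2 * j2 + 1)) (fun _ => a), if_pos (mem_univ _)]
  rw [hs, X_num, hp] at hn
  obtain ⟨u, hu⟩ : ∃ u : X (j2 + pkc V + a),
      u.1 = ins v.1 (lf (fun z : ZMod (2 * j2 + 1) => if z = 1 then a else 0)) :=
    ⟨⟨_, mem_treesOfNumNodesEq.2 hn.1⟩, rfl⟩
  have hD : Dat k a v u := by
    refine ⟨hu, by rw [cont_card, hp]; exact h2, ?_, fun h => hg h v hv⟩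
    rw [hu, hn.2]
    omega
  have w0 : X k := phi u (two (0 : ZMod (2 * (j2 + pkc V + a) + 1)) 0).1 (by
    rw [(two (0 : ZMod (2 * (j2 + pkc V + a) + 1)) 0).2]; exact hD.hk)
  have hok := hD.ok w0
  have hsq := hD.sqd
  obtain ⟨x, hx, hx1, hx2⟩ := hD.w0 w0
  have hc1 := hD.c1 w0
  have hc2 := hD.c2 w0
  have hRu : Rd (cyc u) = ⟨j2, V⟩ := (Rd_ins (lf_length _) hu).trans (by rw [hv])
  have hRx : Rd (cyc x) = ⟨j2, V⟩ := (Rd_ins (lf_length _) hx).trans (by rw [hv])
  have hRy := Rd_tc u hD.hk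
  have vz : cl (cyc (J3.sX (inf u.1) (inf (inf (Tsq.sq v.1).2)) (inf (Tsq.sq u.1).1) w0 0)) ∈
      vcl k V (a + 1) := (vcl_iff hx1 hRx).2 (by omega)
  have vy : ∀ y d, cl (tc u hD.hk y d) ∈ vcl k V a := fun y d => (vcl_iff (hRy y d) hRu).2 rfl
  have hdis : ∀ c : Cyc k, cl c ∈ vcl k V a → cl c ∈ vcl k V (a + 1) → False := by
    intro c h3 h4
    have h5 := (mem_vcl.1 h3).2
    have h6 := (mem_vcl.1 h4).2
    omega
  refine ⟨{cyc (J3.sX (inf u.1) (inf (inf (Tsq.sq v.1).2)) (inf (Tsq.sq u.1).1) w0 0),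
    cyc (J3.sX (inf u.1) (inf (inf (Tsq.sq v.1).2)) (inf (Tsq.sq u.1).1) w0 1),
    cyc (J3.sX (inf u.1) (inf (inf (Tsq.sq v.1).2)) (inf (Tsq.sq u.1).1) w0 2)}, j2 + pkc V + a, u,
    hD.hk, -1, true, hty _ _ ⟨_, _, _, w0, hsq, hok, hD.rj hSt.rj, hD.stj hSt, rfl, rfl⟩, ?_, hRu, rfl, ?_, ?_, ?_⟩
  · rintro c (rfl | rfl | rfl)
    · exact Or.inr vz
    · left; rw [hc1]; exact vy _ _
    · left; rw [hc2]; exact vy _ _
  · intro h3
    exact IsPile.two ⟨j2, v, 1, a, u, rfl, hu⟩ h3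
  · intro c hc
    constructor
    · rintro (rfl | rfl | rfl)
      · exact absurd vz fun h => hdis _ hc h
      · exact Or.inl hc1
      · exact Or.inr hc2
    · rintro (h | h)
      · exact Or.inr (Or.inl (h.trans hc1.symm))
      · exact Or.inr (Or.inr (h.trans hc2.symm))
  · refine jvc_one (j := j2 + pkc V + a + 1) (by omega) ho jv (cyc x) (by omega) hRx ?_ _ ?_
    · -- level 2
      intro h3
      rw [contc_cyc, hx, count_one_ins _ _ (by rw [lf_length, X_num]), lf_sum, cf_sum] at h3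
      have ha : a = 1 := by omega
      have hj2 := hD.jj
      refine ⟨j2, v, -1, 2, x, by omega, rfl, rfl, ?_⟩
      rw [hx]
      congr 2
      funext z
      unfold cf
      rw [ha]
      have e1 : (-1 : ZMod (2 * j2 + 1)) + ((2 : ℕ) : ZMod (2 * j2 + 1)) = 1 := by
        push_cast
        ring
      rw [e1, add_comm]
    · intro c hc
      constructor
      · rintro (rfl | rfl | rfl)
        · exact hx1
        · rw [hc1] at hc
          exact absurd hc fun h => hdis _ (vy _ _) h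
        · rw [hc2] at hc
          exact absurd hc fun h => hdis _ (vy _ _) h
      · intro h3
        left
        have h4 := count_class (m := 0) (k := k) hx1 (by
          rw [pkc_cyc, hx]
          have := ins_num v.1 (lf (cf a (-1) : ZMod (2 * j2 + 1) → ℕ)) (by rw [lf_length, X_num])
          rw [this.2, lf_sum, cf_sum, hp]
          omega) h3 rfl
        exact fam_zero (h3.trans hx1.symm) h4

end Pool.OddHC
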