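import Pool.Agent.Work.MP_8f87b2_h50.J3A
import Pool.Agent.Work.MP_8f87b2_h60.InA0
import Pool.Agent.Work.MP_8f87b2_h21.JVns

/-!
# MP_8f87b2_co: inner words of the right bare windows against the 20 words `W R nil B S j` of `SqD` (J2B, J3V)

`NodeM.innJ`: exact list: `(T(w6), 19, B /= nil)`, `(T(w9), 9 / 17 / 19)` for `q >= 1`. `NodeM.innJ_sharp`: no coincidence if `R`
is sharp (`R = T(((Y)))`).
-/

set_option autoImplicit false
set_option linter.unusedSimpArgs false

namespace Pool.OddHC

open BinaryTree Equiv Multiset Pool.Agent.Work.MP_8f87b2_co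

namespace J3

open H1 HM SRun JVi

variable {k q : ℕ} {R B S R' B' S' : BinaryTree Unit}

/-! ### Beads of the words -/

theorem nbb_two {t : BinaryTree Unit} (h : (OddHC.cont t).count 1 = 0) : nbb t := by
  by_cases e : t = .nil
  · subst e; exact nbb_nil
  · have h1 := Gd_of e h
    exact ⟨fun u v => N101.of_D2 h1.1.d2 u v, fun u v => N101.of_D2 h1.2.d2 u v⟩

theorem bvJ (hR : nbb R) (hB : nbb B) (hS : nbb S) {i : ℕ} (hi : i < 20) : bv 1 (W R .nil B S i) := by
  have n1 := bv_nil 1
  have n0 := bv_nil 0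
  have l1 : bv 1 (.nil △ .nil : BinaryTree Unit) := bv_leaf n1
  have l0 : bv 0 (.nil △ .nil : BinaryTree Unit) := bv_leaf n0
  have r1 := hR.bv 1
  have r0 := hR.bv 0
  have b1 := hB.bv 1
  have b0 := hB.bv 0
  have s1 := hS.bv 1
  have s0 := hS.bv 0
  interval_cases i
  · exact bv_app r1 (bv_tower (nbb_ch 1) n1)
  · exact bv_app r1 (bv_leaf l1)
  · exact bv_leaf (bv_app r1 l1)
  · exact bv_node (bv_app r0 l0) n1
  · exact bv_tower (nbb_ch 1) r1
  · exact bv_leaf (bv_leaf r1)
  · exact bv_tower hR l1
  · exact bv_node (bv_leaf r0) n1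
  · exact bv_leaf (bv_tower hR n1)
  · exact bv_node (bv_tower hR n0) n1
  · exact bv_app b1 (bv_tower (nbb_ch 1) s1)
  · exact bv_app b1 (bv_leaf (bv_leaf s1))
  · exact bv_tower hS (bv_app b1 l1)
  · exact bv_app s1 (bv_node (bv_app b0 l0) n1)
  · exact bv_node (bv_leaf s0) b1
  · exact bv_leaf (bv_tower hS b1)
  · exact bv_app s1 (bv_tower hB l1)
  · exact bv_node (bv_tower hS b0) n1
  · exact bv_leaf (bv_app s1 (bv_tower hB n1))
  · exact bv_node (bv_app s0 (bv_tower hB n0)) n1

theorem SqD.bvJ (h : SqD k R B S) {i : ℕ} (hi : i < 20) : bv 1 (W R .nil B S i) :=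
  J3.bvJ (nbb_two h.one) (nbb_two h.oneB) (nbb_two h.oneS) hi

/-! ### Beads of the inner words -/

theorem inner_hbq' {a b : List Bool} (h : FM R a b) (hR : R ≠ .nil) (hq : q + 3 ≤ Tsq.ht R)
    (h4 : 4 ≤ Tsq.ht R) {x : X k} :
    ∀ i ∈ [1, 3, 8], x.1 = W R (ch (q + 1)) B S i → hb (TT x).1 := by
  have hn : Tsq.ht (.nil : BinaryTree Unit) = 0 := rfl
  have hc : ∀ n, Tsq.ht (ch n) = n := fun n => by rw [H1.ht_eq, ch_ht]
  have hb1 := h.bal
  obtain ⟨d, hd⟩ : ∃ d, b = d ++ [false] := by
    obtain ⟨r, hr⟩ := H1.wd_last hR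
    rw [h.eq] at hr
    rcases List.eq_nil_or_concat b with rfl | ⟨d, x, rfl⟩
    · have := List.append_inj_right' hr rfl
      simp at this
    · refine ⟨d, ?_⟩
      have h5 : (a ++ true :: d) ++ [x] = r ++ [false] := by
        rw [← hr]; simp
      have h6 := List.append_inj_right' h5 rfl
      rw [List.cons.injEq] at h6
      rw [h6.1]
      simp
  have m1 : (d.map not).count true = d.count false := Tsq.count_not_true d
  have m2 : (d.map not).count false = d.count true := Tsq.count_not_false d
  rw [hd] at hb1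
  simp at hb1
  intro i hi e
  simp only [List.mem_cons, List.not_mem_nil, or_false] at hi
  rcases hi with rfl | rfl | rfl
  · have k1 := h.app_right (Z := .nil △ app (ch (q + 1)) (.nil △ .nil)) (by
      rw [Tsq.ht_node, Tsq.ht_app, Tsq.ht_node, hc, hn]; omega)
    have e' : x.1 = app R (.nil △ app (ch (q + 1)) (.nil △ .nil)) := e
    rw [← e'] at k1
    refine ⟨d.map not, (wd (app (ch (q + 1)) (.nil △ .nil))).map not ++ false :: a.map not, ?_, ?_⟩
    · rw [k1.wdT, hd, wd_node]
      simp [wd]
    · rw [m1, m2]; omega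
  · have k1 := (h.app_right (Z := .nil △ ch (q + 1)) (by
      rw [Tsq.ht_node, hc, hn]; omega)).node (Z := .nil) (by rw [hn]; omega)
    have e' : x.1 = (app R (.nil △ ch (q + 1)) △ .nil) := e
    rw [← e'] at k1
    refine ⟨d.map not, (wd (ch (q + 1)) ++ [false]).map not ++ false :: false :: a.map not, ?_, ?_⟩
    · rw [k1.wdT, hd, wd_node]
      simp [wd]
    · rw [m1, m2]; omega
  · have k1 := (h.node (Z := .nil) (by rw [hn]; omega)).app_left
      (P := app (ch (q + 1)) (.nil △ .nil)) (by
        rw [Tsq.ht_node, Tsq.ht_app, Tsq.ht_node, hc, hn]; omega)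
    have e' : x.1 = app (app (ch (q + 1)) (.nil △ .nil)) (R △ .nil) := by
      rw [app_assoc]; exact e
    rw [← e'] at k1
    have ec : wd (ch (q + 1)) = List.replicate (q + 1) true ++ List.replicate (q + 1) false := wd_ch _
    refine ⟨d.map not ++ true :: true :: false :: (List.replicate (q + 1) false ++ List.replicate q true),
      false :: a.map not, ?_, ?_⟩
    · rw [k1.wdT, hd, wd_app, ec, wd_node]
      have e3 : List.replicate (q + 1) true = List.replicate q true ++ [true] := List.replicate_succ'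
      have e4 : List.replicate (q + 1) false = List.replicate q false ++ [false] := List.replicate_succ'
      simp only [List.map_append, List.map_replicate, List.map_cons, wd, List.map_nil, Bool.not_true,
        Bool.not_false, e3, e4, List.append_assoc, List.cons_append, List.nil_append]
    · simp [m1, m2, List.count_replicate]
      omega

theorem _root_.Pool.OddHC.HM.NodeM.hbq (h : NodeM k q R B S) (w0 : X k) {i : ℕ}
    (hi : i ∈ [1, 3, 8] ∨ (i = 9 ∧ q = 0)) : hb (TT (wX R B S q w0 i)).1 := by
  obtain ⟨a, b, h1⟩ := h.fmt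
  have htop := h.top
  have hi' : i < 20 := by
    simp only [List.mem_cons, List.not_mem_nil, or_false] at hi
    omega
  have hw := wX_eq h.dat h.size w0 hi'
  rcases hi with hi | ⟨rfl, rfl⟩
  · exact inner_hbq' h1.fm h.ne (by rw [H1.ht_eq]; omega) (by rw [H1.ht_eq]; omega) i hi hw
  · exact (inner_hb (B := B) (S := S) h1.fm (by rw [H1.ht_eq]; omega) (x := wX R B S 0 w0 9) 9 (by simp) hw).1

/-! ### Start and end -/

theorem notJ {g0 : ℕ} {t : BinaryTree Unit} (h : InnP g0 t) {j : ℕ} (hj : j < 20) (e : t = W R' .nil B' S' j) :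
    j = 9 ∨ j = 17 ∨ (B' ≠ .nil ∧ (j = 10 ∨ j = 11 ∨ j = 19)) := by
  have g3 := h.g3
  have st : ∀ (n : ℕ) (v : List Bool), n ≤ 2 → wd t = List.replicate n true ++ false :: v → False := by
    intro n v hn hw
    have := h.start hw
    omega
  have sp : ∀ (n : ℕ) (v : List Bool), n ≤ 2 → wd t = v ++ true :: List.replicate n false → False := by
    intro n v hn hw
    have := h.stop hw
    omega
  rw [e] at st sp
  have hB : B' = .nil ∨ B' ≠ .nil := em _
  interval_cases j
  · exact (sp 2 (wd R' ++ [true]) le_rfl (by simp [W, wd_app, wd_node, wd])).elim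
  · exact (sp 1 (wd R' ++ [true, false]) (by omega) (by simp [W, wd_app, wd_node, wd, app])).elim
  · exact (st 1 (wd (app R' (.nil △ .nil))) (by omega) (by simp [W, wd_node, wd])).elim
  · exact (sp 2 (true :: wd R') le_rfl (by simp [W, wd_app, wd_node, wd])).elim
  · exact (st 2 (false :: wd R') le_rfl (by simp [W, wd_node, wd, app])).elim
  · exact (st 1 (wd (.nil △ R')) (by omega) (by simp [W, wd_node, wd])).elim
  · exact (sp 1 (true :: (wd R' ++ [false])) (by omega) (by simp [W, wd_node, wd])).elim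
  · exact (st 2 (wd R' ++ [false]) le_rfl (by simp [W, wd_node, wd, app])).elim
  · exact (st 1 (wd (R' △ .nil)) (by omega) (by simp [W, wd_node, wd, app])).elim
  · exact Or.inl rfl
  · rcases hB with rfl | hB
    · exact (st 2 (false :: wd S') le_rfl (by simp [W, wd_node, wd, app])).elim
    · exact Or.inr (Or.inr ⟨hB, Or.inl rfl⟩)
  · rcases hB with rfl | hB
    · exact (st 1 (wd (.nil △ S')) (by omega) (by simp [W, wd_node, wd, app])).elim
    · exact Or.inr (Or.inr ⟨hB, Or.inr (Or.inl rfl)⟩)
  · exact (sp 1 (true :: (wd S' ++ false :: wd B')) (by omega) (by simp [W, wd_app, wd_node, wd])).elim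
  · exact (sp 2 (wd S' ++ true :: wd B') le_rfl (by simp [W, wd_app, wd_node, wd])).elim
  · exact (st 2 (wd S' ++ false :: wd B') le_rfl (by simp [W, wd_node, wd, app])).elim
  · exact (st 1 (wd (S' △ B')) (by omega) (by simp [W, wd_node, wd])).elim
  · exact (sp 1 (wd S' ++ true :: (wd B' ++ [false])) (by omega) (by simp [W, wd_app, wd_node, wd])).elim
  · exact Or.inr (Or.inl rfl)
  · exact (st 1 (wd (app S' (B' △ .nil))) (by omega) (by simp [W, wd_node, wd, app])).elim
  · rcases hB with rfl | hB
    · exact (sp 2 (true :: wd S') le_rfl (by simp [W, wd_app, wd_node, wd])).elim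
    · exact Or.inr (Or.inr ⟨hB, Or.inr (Or.inr rfl)⟩)

/-! ### Contents -/

theorem par22 {ζ η r s : List ℕ} (h1 : Odd ζ.length) (h2 : HM.Ge 3 ζ) (h3 : HM.Ge 3 η) (h4 : Even r.length)
    (e : ζ ++ 2 :: 2 :: η = r ++ 2 :: 2 :: s) : False := by
  have n1 : (2 : ℕ) ∉ ζ := fun h => by have := h2 2 h; omega
  have n2 : (2 : ℕ) ∉ η := fun h => by have := h3 2 h; omega
  rcases List.append_eq_append_iff.1 e with ⟨t, e1, e2⟩ | ⟨t, e1, e2⟩
  · -- r = ζ ++ t
    match t, e1, e2 with
    | [], e1, _ =>
      rw [List.append_nil] at e1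
      rw [e1] at h4
      exact (Nat.not_even_iff_odd.2 h1) h4
    | [x], _, e2 =>
      simp only [List.cons_append, List.nil_append, List.cons.injEq] at e2
      exact n2 (by rw [e2.2.2]; simp)
    | x :: y :: t, _, e2 =>
      simp only [List.cons_append, List.cons.injEq] at e2
      exact n2 (by rw [e2.2.2]; simp)
  · match t, e1, e2 with
    | [], e1, _ =>
      rw [List.append_nil] at e1
      rw [← e1] at h4
      exact (Nat.not_even_iff_odd.2 h1) h4
    | x :: t, e1, e2 =>
      simp only [List.cons_append, List.cons.injEq] at e2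
      exact n1 (by rw [e1, ← e2.1]; simp)

theorem hgP (h : SqD k R B S) : ∀ x ∈ OddHC.cont B, 2 ≤ x := by
  intro x hx
  have h1 := cont_pos B x hx
  have h2 : x ≠ 1 := by
    rintro rfl
    exact absurd h.oneB (Multiset.count_ne_zero.2 hx)
  omega

theorem hgS (h : SqD k R B S) : ∀ x ∈ OddHC.cont S, 2 ≤ x := by
  intro x hx
  have h1 := cont_pos S x hx
  have h2 : x ≠ 1 := by
    rintro rfl
    exact absurd h.oneS (Multiset.count_ne_zero.2 hx)
  omega

/-- word 10 and an inner word with the runs `ζ, 2, 2, η` -/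
theorem not10 (hd : SqD k R' B' S') {ζ η : List ℕ} (h1 : Odd ζ.length) (h2 : HM.Ge 3 ζ) (h3 : HM.Ge 3 η)
    (e : wd (W R' .nil B' S' 10) = HM.ex true (ζ ++ ([2, 2] ++ η))) : False := by
  obtain ⟨r, e1, r1, r2, _⟩ := hv_runs le_rfl B' (hgP hd)
  obtain ⟨s, e2, s1, s2, _⟩ := hv_runs le_rfl S' (hgS hd)
  have e3 : wd (W R' .nil B' S' 10) = HM.ex true (r ++ ([2, 2] ++ s)) := by
    have e4 : wd (W R' .nil B' S' 10) = wd B' ++ ([true, true, false, false] ++ wd S') := by
      simp [W, wd_app, wd_node, wd]
    rw [e4, HM.ex_even r1, HM.ex_even (l := [2, 2]) (by decide), e1, e2]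
    rfl
  rw [e3] at e
  have e5 := HM.ex_inj _ _ true ?_ ?_ e
  · exact par22 h1 h2 h3 r1 e5.symm
  · intro x hx
    simp only [List.mem_append, List.mem_cons, List.not_mem_nil, or_false] at hx
    rcases hx with hx | hx | hx
    · have := r2 x hx; omega
    · omega
    · have := s2 x hx; omega
  · intro x hx
    simp only [List.mem_append, List.mem_cons, List.not_mem_nil, or_false] at hx
    rcases hx with hx | hx | hx
    · have := h2 x hx; omega
    · omega
    · have := h3 x hx; omega

/-- contents of the inner words 0, 6, 9 -/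
theorem contW (h : NodeM k q R B S) (w0 : X k) : 
    OddHC.cont (TT (wX R B S q w0 0)).1 = OddHC.cont R + {q + 3} ∧
    OddHC.cont (TT (wX R B S q w0 6)).1 = raise (OddHC.cont R) + {q + 2} ∧
    OddHC.cont (TT (wX R B S q w0 9)).1 = raise (raise (OddHC.cont R)) + {q + 1} := by
  have cc : ∀ n, OddHC.cont (ch (n + 1)) = {n + 1} := fun n => by rw [ch_eq]; exact cont_pc n
  refine ⟨?_, ?_, ?_⟩
  · rw [cont_TT, wX_eq h.dat h.size w0 (by norm_num)]
    change OddHC.cont (app R (ch (q + 3))) = _
    rw [cont_app, cc]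
  · rw [cont_TT, wX_eq h.dat h.size w0 (by norm_num)]
    change OddHC.cont (R △ ch (q + 2)) = _
    rw [cont_node, cc]
  · rw [cont_TT, wX_eq h.dat h.size w0 (by norm_num)]
    change OddHC.cont ((R △ .nil) △ ch (q + 1)) = _
    rw [cont_node, cont_node, cont_nil, add_zero, cc]

theorem htJ (hd : SqD k R' B' S') : OddHC.ht (W R' .nil B' S' 9) = OddHC.ht R' + 2 ∧
    OddHC.ht (W R' .nil B' S' 17) = OddHC.ht R' + 2 ∧
    OddHC.ht (W R' .nil B' S' 19) = max (OddHC.ht R') (OddHC.ht B' + 1) + 1 := by
  have h1 := hd.htS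
  have h2 := hd.htB
  have h00 : OddHC.ht (BinaryTree.nil : BinaryTree Unit) = 0 := rfl
  refine ⟨?_, ?_, ?_⟩
  · simp only [W, ht_node, h00]; omega
  · simp only [W, app, ht_node, h00]; omega
  · simp only [W, ht_app, ht_node, h00]; omega

/-- **inner words of the right bare windows against the words of `SqD`: exact list** -/
theorem _root_.Pool.OddHC.HM.NodeM.innJ (h : NodeM k q R B S) (w0 : X k) {i : ℕ}
    (hi : i ∈ [0, 1, 3, 6, 8, 9]) (hd : SqD k R' B' S') (hle : OddHC.ht R ≤ OddHC.ht R') {j : ℕ} (hj : j < 20)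
    (e : (TT (wX R B S q w0 i)).1 = W R' .nil B' S' j) :
    (i = 6 ∧ j = 19 ∧ B' ≠ .nil) ∨ (i = 9 ∧ 1 ≤ q ∧ (j = 9 ∨ j = 17 ∨ (j = 19 ∧ B' ≠ .nil))) := by
  have hbv := (hd.bvJ hj).1
  by_cases hh : i ∈ [1, 3, 8] ∨ (i = 9 ∧ q = 0)
  · have h1 := h.hbq w0 hh
    rw [e] at h1
    exact absurd h1 (vb.not_hb hbv)
  have hi2 : i = 0 ∨ i = 6 ∨ (i = 9 ∧ 1 ≤ q) := by
    simp only [List.mem_cons, List.not_mem_nil, or_false] at hi hh
    omega
  have hin := notJ (h.inn w0 hi).1 hj e
  have hpart := h.part
  have htop := h.top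
  have hR := (OddHC.ht_eq R).symm
  obtain ⟨c0, c6, c9⟩ := contW h w0
  have p0 : ∀ x ∈ OddHC.cont R, q + 3 ≤ x := hpart
  have p1 : ∀ x ∈ raise (OddHC.cont R), q + 3 ≤ x := by
    intro x hx
    rcases raise_mem hx with h1 | h1
    · omega
    · exact p0 x h1
  have s1 : (raise (OddHC.cont R)).sup = OddHC.ht R + 1 := by rw [sup_raise, hR]
  have p2 : ∀ x ∈ raise (raise (OddHC.cont R)), q + 3 ≤ x := by
    intro x hx
    rcases raise_mem hx with h1 | h1
    · omega
    · exact p1 x h1
  have s2 : (raise (raise (OddHC.cont R))).sup = OddHC.ht R + 2 := by rw [sup_raise, s1]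
  have z : ∀ (M : Multiset ℕ) (p : ℕ), (∀ x ∈ M, q + 3 ≤ x) → p < q + 3 → M.count p = 0 := by
    intro M p hM hp
    rw [Multiset.count_eq_zero]
    intro hx
    have := hM p hx
    omega
  -- heights
  have t0 : OddHC.ht (TT (wX R B S q w0 0)).1 = OddHC.ht R := by
    rw [OddHC.ht_eq, c0, Multiset.sup_add, Multiset.sup_singleton, hR]
    exact max_eq_left (by omega)
  have t6 : OddHC.ht (TT (wX R B S q w0 6)).1 = OddHC.ht R + 1 := by
    rw [OddHC.ht_eq, c6, Multiset.sup_add, Multiset.sup_singleton, s1]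
    exact max_eq_left (by omega)
  -- word 11 has two parts 1
  have o11 : 1 ≤ (OddHC.cont (W R' .nil B' S' 11)).count 1 := by
    have e1 : W R' .nil B' S' 11 = app B' (.nil △ (.nil △ S')) := rfl
    rw [e1, cont_app, cont_node, cont_nil, raise_zero]
    simp
  have o10 : 1 ≤ (OddHC.cont (W R' .nil B' S' 10)).count 2 := by
    have e1 : W R' .nil B' S' 10 = app B' ((.nil △ .nil) △ S') := rfl
    have e2 : raise (OddHC.cont (.nil △ .nil : BinaryTree Unit)) = {2} := by
      have : OddHC.cont (.nil △ .nil : BinaryTree Unit) = {1} := by rw [cont_node, cont_nil, raise_zero, add_zero]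
      rw [this]
      unfold raise
      simp
    rw [e1, cont_app, cont_node, e2]
    simp
  obtain ⟨j9, j17, j19⟩ := htJ hd
  have hBR := hd.htB
  rcases hi2 with rfl | rfl | ⟨rfl, hq⟩
  · exfalso
    rw [e] at c0 t0
    rcases hin with rfl | rfl | ⟨hB, rfl | rfl | rfl⟩
    · omega
    · omega
    · rw [c0, Multiset.count_add, z _ 2 p0 (by omega), Multiset.count_singleton, if_neg (by omega)] at o10
      omega
    · rw [c0, Multiset.count_add, z _ 1 p0 (by omega), Multiset.count_singleton, if_neg (by omega)] at o11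
      omega
    · have := le_max_left (OddHC.ht R') (OddHC.ht B' + 1)
      omega
  · left
    rw [e] at c6 t6
    rcases hin with rfl | rfl | ⟨hB, rfl | rfl | rfl⟩
    · omega
    · omega
    · exfalso
      rcases Nat.eq_zero_or_pos q with hq | hq
      · subst hq
        obtain ⟨ζ, η, e1, z1, z2, z3, z4⟩ := h.runs w0 (i := 6) (by simp)
        rw [e] at e1
        exact not10 hd z1 z3 z4 e1
      · rw [c6, Multiset.count_add, z _ 2 p1 (by omega), Multiset.count_singleton, if_neg (by omega)] at o10
        omega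
    · exfalso
      rw [c6, Multiset.count_add, z _ 1 p1 (by omega), Multiset.count_singleton, if_neg (by omega)] at o11
      omega
    · exact ⟨rfl, rfl, hB⟩
  · right
    refine ⟨rfl, hq, ?_⟩
    rw [e] at c9
    rcases hin with rfl | rfl | ⟨hB, rfl | rfl | rfl⟩
    · exact Or.inl rfl
    · exact Or.inr (Or.inl rfl)
    · exfalso
      by_cases hq1 : q = 1
      · subst hq1
        obtain ⟨ζ, η, e1, z1, z2, z3, z4⟩ := h.runs w0 (i := 9) (by simp)
        rw [e] at e1
        exact not10 hd z1 (fun x hx => by have := z3 x hx; omega) (fun x hx => by have := z4 x hx; omega) e1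
      · rw [c9, Multiset.count_add, z _ 2 p2 (by omega), Multiset.count_singleton, if_neg (by omega)] at o10
        omega
    · exfalso
      rw [c9, Multiset.count_add, z _ 1 p2 (by omega), Multiset.count_singleton, if_neg (by omega)] at o11
      omega
    · exact Or.inr (Or.inr ⟨rfl, hB⟩)

/-! ### Sharp `R` -/

/-- the first maximum is followed by a valley and a second maximum -/
def Vly (t : BinaryTree Unit) : Prop :=
  ∃ (u v : List Bool) (r : ℕ), 1 ≤ r ∧ FM t u (List.replicate r false ++ (List.replicate r true ++ v))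

/-- strictly below zero -/
def Neg (v : List Bool) : Prop := ∀ m, 1 ≤ m → (v.take m).count true < (v.take m).count false

/-- one maximum -/
def OneTop (t : BinaryTree Unit) : Prop := ∃ u v : List Bool, FM t u v ∧ Neg v

theorem Vly.not {t : BinaryTree Unit} (h : Vly t) (h' : OneTop t) : False := by
  obtain ⟨u, v, r, hr, h1⟩ := h
  obtain ⟨u', v', h2, h3⟩ := h'
  obtain ⟨_, e⟩ := h1.uniq h2
  have h4 := h3 (r + r) (by omega)
  rw [← e] at h4
  have e1 : (List.replicate r false ++ (List.replicate r true ++ v)).take (r + r) =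
      List.replicate r false ++ List.replicate r true := by
    rw [← List.append_assoc]
    exact List.take_left' (by simp)
  rw [e1] at h4
  simp [List.count_replicate] at h4

theorem Neg.append {v w : List Bool} (h : Neg v) (_h0 : v ≠ [])
    (hw : ∀ m, (w.take m).count true + v.count true < (w.take m).count false + v.count false) : Neg (v ++ w) := by
  intro m hm
  rcases Nat.lt_or_ge v.length m with h1 | h1
  · rw [List.take_append, List.take_of_length_le (by omega), List.count_append, List.count_append]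
    have := hw (m - v.length)
    omega
  · rw [List.take_append_of_le_length h1]
    exact h m hm

theorem take_le {t : BinaryTree Unit} (m : ℕ) : ((wd t).take m).count true ≤ ((wd t).take m).count false + Tsq.ht t :=
  Tsq.ht_take t m

theorem JV_FM_ex {t : BinaryTree Unit} (h : t ≠ .nil) : ∃ a b, FM t a b := by
  obtain ⟨a0, c, h1, h2, h3, h4, h5, h6, h7⟩ := Tsq.sq_spec t h
  exact ⟨a0, c ++ false :: wd (Tsq.sq t).2, h1, h3, h4⟩

/-- `R` is sharp -/
def Sharp (R : BinaryTree Unit) : Prop :=
  ∃ (j : ℕ) (y : X j) (Y : BinaryTree Unit), y.1 = (Y △ .nil) △ .nil ∧ Y ≠ .nil ∧ (TT y).1 = R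

/-- the form of the data for sharp `R` -/
theorem SqD.sharp (hd : SqD k R B S) (hs : Sharp R) : ∃ d c : List Bool,
    wd R = (d ++ [true]) ++ true :: (c ++ false :: wd B) ∧ wd S = (true :: d) ++ true :: (false :: c) ∧
    FM R (d ++ [true]) (c ++ false :: wd B) ∧ FM S (true :: d) (false :: c) ∧
    Neg (c ++ false :: wd B) ∧ Neg (false :: c) ∧ c.count false + 1 = c.count true + Tsq.ht R ∧
    Tsq.ht B + 3 ≤ Tsq.ht R := by
  obtain ⟨j, y, Y, hy, hY, hR⟩ := hs
  obtain ⟨a, b, hY1⟩ := JV_FM_ex hY
  have hn := hd.h3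
  have hp := JV.parts_of hY1
  have h1 := JV.FM3 hy hY1
  rw [hR] at h1
  obtain ⟨a', c, e1, e2, e3, e4, e5, e6, e7⟩ := Tsq.sq_spec R hd.ne
  rw [hd.sq] at e1 e2 e7
  have h2 : FM R a' (c ++ false :: wd B) := ⟨e1, e3, e4⟩
  obtain ⟨rfl, e8⟩ := h2.uniq h1
  have hS : Tsq.ht S = Tsq.ht R := by
    rw [H1.ht_eq, H1.ht_eq]; exact hd.htS
  have hRn : Tsq.ht R = Tsq.ht Y + 2 := by
    have h5 := h1.top
    have h6 := hp.bot
    have m1 : (b.map not).count true = b.count false := Tsq.count_not_true b
    have m2 : (b.map not).count false = b.count true := Tsq.count_not_false b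
    rw [List.count_append, List.count_append, m1, m2] at h5
    simp at h5
    omega
  have m1 : ∀ l : List Bool, (l.map not).count true = l.count false := Tsq.count_not_true
  have m2 : ∀ l : List Bool, (l.map not).count false = l.count true := Tsq.count_not_false
  -- the part after the first maximum
  have hC : ∀ m, 3 ≤ m → ((c ++ false :: wd B).take m).count true + 3 ≤ ((c ++ false :: wd B).take m).count false := by
    intro m hm
    obtain ⟨m', rfl⟩ : ∃ m', m = m' + 3 := ⟨m - 3, by omega⟩
    rw [e8]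
    simp only [List.take_succ_cons, List.count_cons]
    rw [← List.map_take, m1, m2]
    have := hp.lo m'
    simp
    omega
  have hlen : 2 ≤ c.length := by
    have h5 : c.count false ≤ c.length := List.count_le_length
    rw [H1.ht_eq] at e6
    omega
  refine ⟨b.map not, c, e1, by rw [e2]; simp, h2, ⟨by rw [e2]; simp, ?_, ?_⟩, ?_, ?_, e6, ?_⟩
  · intro m
    rw [hS, hRn]
    rcases m with _ | m
    · simp
    · rw [List.take_succ_cons, List.count_cons_self, List.count_cons_of_ne (by simp), ← List.map_take, m1, m2]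
      have := hp.lo' m
      omega
  · rw [hS, hRn, List.count_cons_self, List.count_cons_of_ne (by simp), m1, m2]
    have := hp.bot
    omega
  · intro m hm
    rcases Nat.lt_or_ge m 3 with h5 | h5
    · rw [e8]
      have : m = 1 ∨ m = 2 := by omega
      rcases this with rfl | rfl <;> simp
    · have := hC m h5
      omega
  · intro m hm
    obtain ⟨m', rfl⟩ : ∃ m', m = m' + 1 := ⟨m - 1, by omega⟩
    rw [List.take_succ_cons, List.count_cons_self, List.count_cons_of_ne (by simp)]
    have := e5 m'
    omega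
  · by_cases hB : B = .nil
    · subst hB
      have : Tsq.ht (BinaryTree.nil : BinaryTree Unit) = 0 := rfl
      rw [this, H1.ht_eq]
      omega
    · obtain ⟨a2, b2, h5⟩ := JV_FM_ex hB
      have h6 := hC (c.length + (1 + (a2.length + 1))) (by omega)
      have e9 : (c ++ false :: wd B).take (c.length + (1 + (a2.length + 1))) = c ++ false :: (a2 ++ [true]) := by
        rw [List.take_append, List.take_of_length_le (by omega), h5.eq]
        have e10 : c.length + (1 + (a2.length + 1)) - c.length = (a2.length + 1) + 1 := by omega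
        rw [e10, List.take_succ_cons, List.take_append, List.take_of_length_le (by omega)]
        simp
      rw [e9] at h6
      have h7 := h5.top
      simp only [List.count_append, List.count_cons, List.count_nil] at h6
      simp at h6
      omega

theorem SqD.oneTop (hd : SqD k R B S) (hs : Sharp R) {j : ℕ} (hj : j = 9 ∨ j = 17 ∨ j = 19) :
    OneTop (W R .nil B S j) := by
  obtain ⟨d, c, _, _, h1, h2, h3, h4, h5, h6⟩ := hd.sharp hs
  have hS : Tsq.ht S = Tsq.ht R := by
    rw [H1.ht_eq, H1.ht_eq]; exact hd.htS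
  have hn : Tsq.ht (.nil : BinaryTree Unit) = 0 := rfl
  have hw0 : wd (.nil : BinaryTree Unit) = [] := rfl
  have cB := wd_counts B
  have key : ∀ v : List Bool, Neg v → v ≠ [] → Neg (v ++ [false]) := by
    intro v hv h0
    refine hv.append h0 ?_
    intro m
    have h7 := hv v.length (by
      cases v with
      | nil => exact absurd rfl h0
      | cons _ _ => simp)
    rw [List.take_length] at h7
    rcases m with _ | m
    · simpa using h7
    · simp
      omega
  rcases hj with rfl | rfl | rfl
  · refine ⟨_, _, (h1.node (Z := .nil) (by rw [hn]; omega)).node (Z := .nil) (by rw [hn]; omega), ?_⟩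
    rw [hw0]
    exact key _ (key _ h3 (by simp)) (by simp)
  · refine ⟨_, _, (h2.node (Z := B) (by omega)).node (Z := .nil) (by rw [hn]; omega), ?_⟩
    rw [hw0]
    refine key _ (h4.append (by simp) ?_) (by simp)
    intro m
    rw [List.count_cons_self, List.count_cons_of_ne (by simp)]
    rcases m with _ | m
    · simp
      omega
    · rw [List.take_succ_cons, List.count_cons_self, List.count_cons_of_ne (by simp)]
      have := take_le (t := B) m
      omega
  · have k1 := (h2.app_right (Z := B △ .nil) (by rw [Tsq.ht_node, hn]; omega)).node (Z := .nil)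
      (by rw [hn]; omega)
    refine ⟨_, _, k1, ?_⟩
    rw [hw0]
    refine key _ (h4.append (by simp) ?_) (by simp)
    intro m
    have := take_le (t := B △ .nil) m
    rw [Tsq.ht_node, hn] at this
    rw [List.count_cons_self, List.count_cons_of_ne (by simp)]
    omega

/-- the inner words 6, 9 have two maxima -/
theorem vly69 (h : NodeM k q R B S) (w0 : X k) {i : ℕ} (hi : i = 6 ∨ i = 9) : Vly (TT (wX R B S q w0 i)).1 := by
  obtain ⟨a, b, h1⟩ := h.fmt
  have hn : Tsq.ht (.nil : BinaryTree Unit) = 0 := rfl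
  have hc : ∀ n, Tsq.ht (ch n) = n := fun n => by rw [H1.ht_eq, ch_ht]
  have htop : q + 3 < Tsq.ht R := by rw [H1.ht_eq]; exact h.top
  have hp := JV.parts_of h1.fm
  have hbot := hp.bot
  have m1 : ∀ l : List Bool, (l.map not).count true = l.count false := Tsq.count_not_true
  have m2 : ∀ l : List Bool, (l.map not).count false = l.count true := Tsq.count_not_false
  have ec : ∀ n, wd (ch n) = List.replicate n true ++ List.replicate n false := wd_ch
  obtain ⟨c0, c6, c9⟩ := contW h w0
  have hR : (OddHC.cont R).sup = Tsq.ht R := by rw [H1.ht_eq]; exact (OddHC.ht_eq R).symm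
  rcases hi with rfl | rfl
  · have k1 := h1.fm.node (Z := ch (q + 2)) (by rw [hc]; omega)
    have e' : (wX R B S q w0 6).1 = (R △ ch (q + 2)) := by
      rw [wX_eq h.dat h.size w0 (by norm_num)]; rfl
    rw [← e'] at k1
    have hh : Tsq.ht (TT (wX R B S q w0 6)).1 = Tsq.ht R + 1 := by
      rw [H1.ht_eq, OddHC.ht_eq, c6, Multiset.sup_add, Multiset.sup_singleton, sup_raise, hR]
      exact max_eq_left (by omega)
    refine ⟨b.map not, false :: false :: a.map not, q + 2, by omega, ⟨?_, ?_, ?_⟩⟩
    · rw [k1.wdT, ec]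
      simp
    · intro m
      rw [hh, ← List.map_take, m1, m2]
      have := hp.lo' m
      omega
    · rw [hh, m1, m2]
      omega
  · have k1 := (h1.fm.node (Z := .nil) (by rw [hn]; omega)).node (Z := ch (q + 1)) (by
      rw [Tsq.ht_node, hc, hn]; omega)
    have e' : (wX R B S q w0 9).1 = ((R △ .nil) △ ch (q + 1)) := by
      rw [wX_eq h.dat h.size w0 (by norm_num)]; rfl
    rw [← e'] at k1
    have hh : Tsq.ht (TT (wX R B S q w0 9)).1 = Tsq.ht R + 2 := by
      rw [H1.ht_eq, OddHC.ht_eq, c9, Multiset.sup_add, Multiset.sup_singleton, sup_raise, sup_raise, hR]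
      exact max_eq_left (by omega)
    refine ⟨b.map not ++ [true], false :: false :: false :: a.map not, q + 1, by omega, ⟨?_, ?_, ?_⟩⟩
    · rw [k1.wdT, ec]
      simp [wd]
    · intro m
      rw [hh, List.take_append, List.count_append, List.count_append, ← List.map_take, m1, m2]
      have := hp.lo' m
      have h5 : ([true].take (m - (b.map not).length)).count true ≤ 1 :=
        le_trans List.count_le_length (by simp)
      omega
    · rw [hh, List.count_append, List.count_append, m1, m2]
      simp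
      omega

/-- **sharp `R'`: no inner word of a right bare window is a word of `SqD`** -/
theorem _root_.Pool.OddHC.HM.NodeM.innJ_sharp (h : NodeM k q R B S) (w0 : X k) {i : ℕ}
    (hi : i ∈ [0, 1, 3, 6, 8, 9]) (hd : SqD k R' B' S') (hs : Sharp R') (hle : OddHC.ht R ≤ OddHC.ht R') {j : ℕ}
    (hj : j < 20) : (TT (wX R B S q w0 i)).1 ≠ W R' .nil B' S' j := by
  intro e
  rcases h.innJ w0 hi hd hle hj e with ⟨rfl, rfl, _⟩ | ⟨rfl, _, hj⟩
  · have h1 := vly69 h w0 (Or.inl rfl)
    rw [e] at h1
    exact h1.not (hd.oneTop hs (Or.inr (Or.inr rfl)))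
  · have h1 := vly69 h w0 (Or.inr rfl)
    rw [e] at h1
    refine h1.not (hd.oneTop hs ?_)
    rcases hj with hj | hj | ⟨hj, _⟩
    · exact Or.inl hj
    · exact Or.inr (Or.inl hj)
    · exact Or.inr (Or.inr hj)

end J3

end Pool.OddHC
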